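import Pool.Agent.Helper66.Rot.Z6
import Pool.Agent.Helper88.Rot.CaseB
import Pool.Agent.Helper88.Rot.Final

/-!
The trichotomy of irrational numbers and the final theorem.
-/

namespace Pool.Agent.Helper66.RotZ

open CircleDeg1Lift Filter Topology Pool.Agent.Helper88.Rot

theorem trichotomy {θ : ℝ} (hθ : Irrational θ) (hA : ¬ WAA θ) (hB : ¬ BA θ) : WAB θ := by
  unfold WAA at hA
  unfold BA at hB
  push Not at hA hB
  obtain ⟨η₀, hη₀, hA⟩ := hA
  intro η hη
  obtain ⟨q, p, hq, hlt⟩ := hB (min η η₀) (lt_min hη hη₀)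
  have hq' : (0 : ℝ) < q := by exact_mod_cast hq
  -- reduce
  set d : ℕ := Int.gcd p q with hd
  have hd0 : 0 < d := Int.gcd_pos_of_ne_zero_right _ (by exact_mod_cast hq.ne')
  obtain ⟨q₁z, hq₁z⟩ := Int.gcd_dvd_right (a := p) (b := (q : ℤ))
  obtain ⟨p₁, hp₁⟩ := Int.gcd_dvd_left (a := p) (b := (q : ℤ))
  rw [← hd] at hq₁z hp₁
  have hd0z : (0 : ℤ) < d := by exact_mod_cast hd0
  have hq₁0 : 0 < q₁z := by
    have : (0 : ℤ) < q := by exact_mod_cast hq
    rw [hq₁z] at this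
    exact pos_of_mul_pos_right this hd0z.le
  obtain ⟨q₁, hq₁⟩ := Int.eq_ofNat_of_zero_le hq₁0.le
  have hcop : IsCoprime p₁ (q₁ : ℤ) := by
    rw [Int.isCoprime_iff_gcd_eq_one]
    have h1 : Int.gcd (d * p₁) (d * q₁z) = d * Int.gcd p₁ q₁z := by
      rw [Int.gcd_mul_left]
      simp
    rw [← hp₁, ← hq₁z, ← hd, hq₁] at h1
    have h2 : d * 1 = d * Int.gcd p₁ (q₁ : ℤ) := by rw [mul_one]; exact h1
    exact (Nat.eq_of_mul_eq_mul_left hd0 h2).symm
  have hq₁pos : 0 < q₁ := by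
    rw [hq₁] at hq₁0
    exact_mod_cast hq₁0
  have hq₁' : (0 : ℝ) < q₁ := by exact_mod_cast hq₁pos
  have hqr : (q : ℝ) = d * q₁ := by
    have : (q : ℤ) = d * q₁ := by rw [hq₁z, hq₁]
    exact_mod_cast this
  have hpr : (p : ℝ) = d * p₁ := by exact_mod_cast hp₁
  have hd1 : (1 : ℝ) ≤ d := by exact_mod_cast hd0
  have hlt' : q₁ * |q₁ * θ - p₁| < min η η₀ := by
    refine lt_of_le_of_lt ?_ hlt
    have e : (q : ℝ) * |q * θ - p| = d * d * (q₁ * |q₁ * θ - p₁|) := by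
      rw [hqr, hpr]
      have : (d : ℝ) * q₁ * θ - d * p₁ = d * (q₁ * θ - p₁) := by ring
      rw [this, abs_mul, abs_of_pos (by linarith : (0 : ℝ) < d)]
      ring
    rw [e]
    have h0 : 0 ≤ (q₁ : ℝ) * |q₁ * θ - p₁| := by positivity
    have h1 : (1 : ℝ) * 1 ≤ d * d := mul_le_mul hd1 hd1 zero_le_one (by linarith)
    calc (q₁ : ℝ) * |q₁ * θ - p₁| = 1 * 1 * (q₁ * |q₁ * θ - p₁|) := by ring
      _ ≤ _ := mul_le_mul_of_nonneg_right h1 h0
  have hne : (q₁ : ℝ) * θ - p₁ ≠ 0 := by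
    have h1 : Irrational ((q₁ : ℝ) * θ) := hθ.natCast_mul hq₁pos.ne'
    intro h
    exact h1.ne_int p₁ (by linarith)
  rcases lt_or_gt_of_ne hne with h | h
  · exfalso
    rw [abs_of_neg h] at hlt'
    have h1 := hA q₁ p₁ hq₁pos hcop (by linarith)
    have h2 := hlt'.trans_le (min_le_right _ _)
    linarith
  · rw [abs_of_pos h] at hlt'
    exact ⟨q₁, p₁, hq₁pos, hcop, h, hlt'.trans_le (min_le_left _ _)⟩

/-- every irrational number has the perturbation property -/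
theorem PL_of_irrational {θ : ℝ} (hθ : Irrational θ) : PL θ := by
  apply PL_of_PL'
  by_cases hA : WAA θ
  · exact caseA hθ hA
  · by_cases hB : BA θ
    · exact caseB hθ hB
    · exact caseZ (trichotomy hθ hA hB)

/-- The maximal translation number of a word is attained and rational. -/
theorem final_rational (w : FreeGroup (Fin 2)) (r s : ℚ) :
    ∃ R : ℚ, IsGreatest {t : ℝ | ∃ ρ : FreeGroup (Fin 2) →* CircleDeg1Liftˣ,
      IsConj (ρ (FreeGroup.of 0)) (translate (Multiplicative.ofAdd (r : ℝ))) ∧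
      IsConj (ρ (FreeGroup.of 1)) (translate (Multiplicative.ofAdd (s : ℝ))) ∧
      t = translationNumber (ρ w)} (R : ℝ) := by
  obtain ⟨R, hR, h⟩ := final_of (fun _ => False) (fun θ hθ _ => PL_of_irrational hθ) w r s
  rcases h with ⟨q, hq⟩ | h
  · exact ⟨q, hq ▸ hR⟩
  · exact h.elim

end Pool.Agent.Helper66.RotZ
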