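import Pool.Agent.Helper88.Rot.Tent

/-!
Refined effect of the perturbation on one stage function: the error is proportional to the
displacement.
-/

namespace Pool.Agent.Helper66.RotZ

open CircleDeg1Lift Filter Topology Pool.Agent.Helper88.Rot

/-- refined action of powers `-1, 0, 1` -/
theorem h_zpow' {K ε : ℝ} {u : ℝ → ℝ} (hu : Bump K ε u) (hε : ε ≤ 1 / 2) {z₀ Q : ℝ}
    (hQ : 2 * K ≤ Q) {h : CircleDeg1Liftˣ} (hh : ∀ z, h z = z + uh u z₀ Q z) (σ : ℤ)
    (hσ : σ = -1 ∨ σ = 0 ∨ σ = 1) (z : ℝ) :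
    |(h ^ σ : CircleDeg1Liftˣ) z - (z + σ * uh u z₀ Q z)| ≤ 2 * ε * |σ * uh u z₀ Q z| := by
  rcases hσ with h1 | h1 | h1
  · have := h_zpow hu hε hQ hh σ (Or.inl h1) z
    rw [h1] at this ⊢
    rw [Int.cast_neg, Int.cast_one, neg_one_mul, abs_neg]
    rw [Int.cast_neg, Int.cast_one, neg_one_mul] at this
    exact this
  · subst h1
    simp
  · have := h_zpow hu hε hQ hh σ (Or.inr (Or.inr h1)) z
    rw [h1] at this ⊢
    rw [Int.cast_one, one_mul] at this ⊢
    exact this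

/-- lower bound for the gain, in rescaled coordinates -/
noncomputable def gain2 (σ : ℤ) (ρ : ℝ) (u : ℝ → ℝ) (ε N ω ξ : ℝ) : ℝ :=
  if |ξ| ≤ N then σ * UU ρ u ξ - 2 * ε * |σ * UU ρ u ξ| - 5 * ω else 0

theorem σ_le {σ : ℤ} (hσ : σ = -1 ∨ σ = 0 ∨ σ = 1) (x : ℝ) : |(σ : ℝ) * x| ≤ |x| := by
  rcases hσ with rfl | rfl | rfl <;> simp

theorem step_lemma2 {K ε A ω ρ Q z₀ N : ℝ} {u : ℝ → ℝ} (hu : Bump K ε u)
    (hA : ∀ y, |u y| ≤ A) (hA0 : A ≤ 1 / 2) (hε : ε ≤ 1 / 2) {F : ℝ → ℝ} (hc : Continuous F)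
    (hm : Monotone F)
    (hd : ∀ x, F (x + 1) = F x + 1) (hρ : 0 ≤ ρ) (hω0 : 0 ≤ ω) (hω : ω ≤ 1 / 4)
    (hwin : ∀ y, |y| ≤ K + 1 → |F (z₀ + y / Q) - F z₀ - ρ * y / Q| ≤ ω / Q)
    (hQ : 2 * K + 2 ≤ Q) (hQ' : 2 * (ρ * K + 1) ≤ Q) {h : CircleDeg1Liftˣ}
    (hh : ∀ z, h z = z + uh u z₀ Q z) {σ : ℤ} (hσ : σ = -1 ∨ σ = 0 ∨ σ = 1)
    (hN : ρ * K + 1 ≤ N) {X z : ℝ} (hz : X ≤ F z) :
    X + gain2 σ ρ u ε N ω (Q * rr (X - F z₀)) / Q ≤ F ((h ^ σ : CircleDeg1Liftˣ) z) := by
  have hK := hu.Kpos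
  have hQ0 : 0 < Q := by linarith
  have hA00 : 0 ≤ A := (abs_nonneg _).trans (hA 0)
  have hεnn := hu.εnn
  obtain ⟨z1, hz1, hmin⟩ := exists_min_level F hc hm hd X
  have hzz : z1 ≤ z := hmin z hz
  have hmono : (h ^ σ : CircleDeg1Liftˣ) z1 ≤ (h ^ σ : CircleDeg1Liftˣ) z :=
    (h ^ σ : CircleDeg1Liftˣ).val.monotone hzz
  refine le_trans ?_ (hm hmono)
  set x := z1 - z₀ with hx
  set l := round x with hl
  set r := rr x with hr
  set y := Q * r with hy
  have hr1 : |r| ≤ 1 / 2 := rr_abs_le x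
  have hz1' : z1 = z₀ + r + l := by
    have : r = x - l := rfl
    rw [this, hx]; ring
  have hX : X = F (z₀ + r) + l := by rw [← hz1, hz1', F_add_int hd]
  have hyr : r = y / Q := by rw [hy]; field_simp
  have hpow := h_zpow' hu hε (by linarith : 2 * K ≤ Q) hh σ hσ z1
  have huh : uh u z₀ Q z1 = u y / Q := rfl
  rcases le_or_gt K |y| with hyK | hyK
  · -- outside the window
    have hu0 : u y = 0 := hu.supp y hyK
    rw [huh, hu0, zero_div, mul_zero, add_zero, abs_zero, mul_zero] at hpow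
    have e : (h ^ σ : CircleDeg1Liftˣ) z1 = z1 := by
      have := abs_nonpos_iff.1 hpow
      linarith
    rw [e, hz1]
    have hc1 : (ρ * K - ω) / Q ≤ |rr (X - F z₀)| := by
      have w1 := abs_le.1 (hwin K (by rw [abs_of_pos hK]; linarith))
      have w2 := abs_le.1 (hwin (-K) (by rw [abs_neg, abs_of_pos hK]; linarith))
      have hKQ : K / Q ≤ 1 / 2 := by rw [div_le_iff₀ hQ0]; linarith
      have g1 : (ρ * K - ω) / Q = ρ * K / Q - ω / Q := by rw [sub_div]
      have g2 : ρ * -K / Q = - (ρ * K / Q) := by ring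
      rw [g2] at w2
      rw [g1]
      rcases le_total 0 y with h0 | h0
      · rw [abs_of_nonneg h0] at hyK
        have r1 : K / Q ≤ r := by rw [hyr]; gcongr
        have r2 : r ≤ 1 / 2 := (le_abs_self r).trans hr1
        have f1 : F (z₀ + K / Q) ≤ F (z₀ + r) := hm (by linarith)
        have f2 : F (z₀ + r) ≤ F (z₀ + -K / Q + 1) := hm (by rw [neg_div]; linarith)
        rw [hd] at f2
        refine rr_abs_ge l ?_ ?_
        · rw [hX]; linarith [w1.1]
        · rw [hX]; linarith [w2.2]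
      · rw [abs_of_nonpos h0] at hyK
        have r1 : r ≤ -K / Q := by rw [hyr]; gcongr; linarith
        have r2 : -(1 / 2) ≤ r := by
          have := neg_abs_le r
          linarith
        have f1 : F (z₀ + r) ≤ F (z₀ + -K / Q) := hm (by linarith)
        have f2 : F (z₀ + K / Q) ≤ F (z₀ + r + 1) := hm (by linarith)
        rw [hd] at f2
        refine rr_abs_ge (l - 1) ?_ ?_
        · rw [hX]; push_cast; linarith [w1.1]
        · rw [hX]; push_cast; linarith [w2.2]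
    have hξ : ρ * K - ω ≤ |Q * rr (X - F z₀)| := by
      rw [abs_mul, abs_of_pos hQ0]
      rw [div_le_iff₀ hQ0] at hc1
      linarith
    have hg : gain2 σ ρ u ε N ω (Q * rr (X - F z₀)) ≤ 0 := by
      unfold gain2
      split_ifs with hN'
      · have h1 := UU_small hu hρ hω0 hξ
        have h2 : (σ : ℝ) * UU ρ u (Q * rr (X - F z₀)) ≤ |UU ρ u (Q * rr (X - F z₀))| :=
          (le_abs_self _).trans (σ_le hσ _)
        have h3 : ε * ω ≤ 1 * ω := mul_le_mul_of_nonneg_right (by linarith) hω0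
        have h4 : 0 ≤ 2 * ε * |(σ : ℝ) * UU ρ u (Q * rr (X - F z₀))| := by positivity
        linarith
      · exact le_rfl
    have : gain2 σ ρ u ε N ω (Q * rr (X - F z₀)) / Q ≤ 0 :=
      div_nonpos_of_nonpos_of_nonneg hg hQ0.le
    linarith
  · -- inside the window
    have w1 := hwin y (by linarith)
    rw [← hyr] at w1
    set e1 : ℝ := Q * (F (z₀ + r) - F z₀) - ρ * y with he1
    have he1' : |e1| ≤ ω := by
      have : e1 = Q * (F (z₀ + r) - F z₀ - ρ * y / Q) := by rw [he1]; field_simp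
      rw [this, abs_mul, abs_of_pos hQ0]
      have := mul_le_mul_of_nonneg_left w1 hQ0.le
      calc _ ≤ Q * (ω / Q) := this
        _ = ω := by field_simp
    have hρy : |ρ * y| ≤ ρ * K := by
      rw [abs_mul, abs_of_nonneg hρ]
      exact mul_le_mul_of_nonneg_left hyK.le hρ
    have hXF : X - F z₀ - l = (ρ * y + e1) / Q := by
      rw [hX, he1]; field_simp; ring
    have hlt : |X - F z₀ - l| < 1 / 2 := by
      rw [hXF, abs_div, abs_of_pos hQ0, div_lt_iff₀ hQ0]
      have := abs_add_le (ρ * y) e1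
      linarith
    have hrr := rr_eq_of_abs_lt l hlt
    have hξ : Q * rr (X - F z₀) = ρ * y + e1 := by
      rw [hrr, hXF]; field_simp
    rw [hξ]
    have hev : |ρ * y + e1| ≤ N := by
      have := abs_add_le (ρ * y) e1
      linarith
    unfold gain2
    rw [if_pos hev]
    -- new position
    set z2 := (h ^ σ : CircleDeg1Liftˣ) z1 with hz2
    rw [huh] at hpow
    set y2 := Q * (z2 - z₀ - l) with hy2
    have hy2' : y2 = y + σ * u y + Q * (z2 - (z1 + σ * (u y / Q))) := by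
      rw [hy2, hz1', hyr]; field_simp; ring
    have he2 : |Q * (z2 - (z1 + σ * (u y / Q)))| ≤ 2 * ε * |σ * u y| := by
      rw [abs_mul, abs_of_pos hQ0]
      calc Q * |z2 - (z1 + σ * (u y / Q))| ≤ Q * (2 * ε * |σ * (u y / Q)|) :=
            mul_le_mul_of_nonneg_left hpow hQ0.le
        _ = 2 * ε * |σ * u y| := by
          rw [← mul_div_assoc, abs_div, abs_of_pos hQ0]; field_simp
    set e2 := Q * (z2 - (z1 + σ * (u y / Q))) with he2def
    have hσu : |(σ : ℝ) * u y| ≤ A := (σ_le hσ _).trans (hA y)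
    have he2A : |e2| ≤ 2 * ε * A := he2.trans (mul_le_mul_of_nonneg_left hσu (by positivity))
    have hy2K : |y2| ≤ K + 1 := by
      rw [hy2']
      have a1 := abs_add_le (y + σ * u y) e2
      have a2 := abs_add_le y (σ * u y)
      have a3 : 2 * ε * A ≤ 1 * A := mul_le_mul_of_nonneg_right (by linarith) hA00
      linarith
    have w2 := hwin y2 hy2K
    have hz2F : F z2 = F (z₀ + y2 / Q) + l := by
      rw [← F_add_int hd]
      congr 1
      rw [hy2]; field_simp; ring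
    set e3 : ℝ := Q * (F (z₀ + y2 / Q) - F z₀) - ρ * y2 with he3
    have he3' : |e3| ≤ ω := by
      have : e3 = Q * (F (z₀ + y2 / Q) - F z₀ - ρ * y2 / Q) := by rw [he3]; field_simp
      rw [this, abs_mul, abs_of_pos hQ0]
      have := mul_le_mul_of_nonneg_left w2 hQ0.le
      calc _ ≤ Q * (ω / Q) := this
        _ = ω := by field_simp
    have hdiff : F z2 - X = (ρ * (y2 - y) + e3 - e1) / Q := by
      rw [hz2F, hX, he3, he1]; field_simp; ring
    have hUy : |UU ρ u (ρ * y + e1) - ρ * u y| ≤ ε * ω := by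
      rcases hρ.eq_or_lt with h0 | h0
      · rw [← h0]
        simp only [UU, zero_mul, sub_self, abs_zero]
        positivity
      · have e : ρ * u y = UU ρ u (ρ * y) := by
          unfold UU
          congr 2
          field_simp
        rw [e]
        refine (UU_lip hu hρ _ _).trans (mul_le_mul_of_nonneg_left ?_ hεnn)
        have : ρ * y + e1 - ρ * y = e1 := by ring
        rw [this]; exact he1'
    have hεω : ε * ω ≤ 1 * ω := mul_le_mul_of_nonneg_right (by linarith) hω0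
    have hσdiff : |(σ : ℝ) * UU ρ u (ρ * y + e1) - σ * (ρ * u y)| ≤ ε * ω := by
      rw [← mul_sub]; exact (σ_le hσ _).trans hUy
    have hρe2 : |ρ * e2| ≤ 2 * ε * |σ * UU ρ u (ρ * y + e1)| + ω := by
      rw [abs_mul, abs_of_nonneg hρ]
      have s1 : ρ * |e2| ≤ ρ * (2 * ε * |σ * u y|) := mul_le_mul_of_nonneg_left he2 hρ
      have s2 : ρ * (2 * ε * |σ * u y|) = 2 * ε * |σ * (ρ * u y)| := by
        have : (σ : ℝ) * (ρ * u y) = ρ * (σ * u y) := by ring
        rw [this, abs_mul ρ, abs_of_nonneg hρ]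
        ring
      have s3 : |(σ : ℝ) * (ρ * u y)| ≤ |σ * UU ρ u (ρ * y + e1)| + ω := by
        have t1 := abs_sub_abs_le_abs_sub ((σ : ℝ) * (ρ * u y)) (σ * UU ρ u (ρ * y + e1))
        rw [abs_sub_comm] at t1
        linarith
      have s4 : 2 * ε * |(σ : ℝ) * (ρ * u y)| ≤ 2 * ε * (|σ * UU ρ u (ρ * y + e1)| + ω) :=
        mul_le_mul_of_nonneg_left s3 (by positivity)
      have s5 : 2 * ε * ω ≤ 1 * ω := mul_le_mul_of_nonneg_right (by linarith) hω0
      linarith
    have h1 := (abs_le.1 he3').1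
    have h2 := (abs_le.1 he1').2
    have key : σ * UU ρ u (ρ * y + e1) - 2 * ε * |σ * UU ρ u (ρ * y + e1)| - 5 * ω
        ≤ ρ * (y2 - y) + e3 - e1 := by
      rw [hy2']
      have : ρ * (y + σ * u y + e2 - y) = σ * (ρ * u y) + ρ * e2 := by ring
      rw [this]
      have h4 := (abs_le.1 hρe2).1
      have h5 := (abs_le.1 hσdiff).2
      linarith
    have := div_le_div_of_nonneg_right key hQ0.le
    rw [← hdiff] at this
    linarith

/-- refined contribution of stage `s` in round `k` at level `φ` -/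
noncomputable def con2 {m : ℕ} {θ : ℝ} {S : Sys m θ} (L : Loc S) (φ : ℝ) (s k : ℕ) : ℝ :=
  if |(L.n s k : ℝ)| ≤ L.N' then
    S.σ s * UU (L.ρ s) L.u (L.n s k + φ - L.v s)
      - 2 * L.ε * |S.σ s * UU (L.ρ s) L.u (L.n s k + φ - L.v s)| - 5 * L.ω else 0

theorem LI_step2 {m : ℕ} {θ : ℝ} {S : Sys m θ} (L : Loc S) {z : ℝ} {k s : ℕ} (hs : s < m)
    {φ : ℝ} (hφ : |φ| ≤ L.Φm) (h : L.LI z k s φ) : L.LI z k (s + 1) (φ + con2 L φ s k) := by
  have hQ := L.Qpos
  set X := L.x₀ + (k * L.P + φ) / L.Q with hX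
  have h1 := step_lemma2 L.hu L.hA L.hA0 L.hε (S.cont s) (S.mono s) (S.deg s) (L.hρ s hs) L.hω0
    L.hω (L.hwin s hs) L.hQ (L.hQ' s hs) L.hh (S.hσ s) (L.hN s hs) (X := X)
    (z := W S.M S.σ L.h s ((L.w ^ k : CircleDeg1Liftˣ) z)) h
  have h2 : S.F (s + 1) (W S.M S.σ L.h (s + 1) ((L.w ^ k : CircleDeg1Liftˣ) z))
      = S.F s ((L.h ^ S.σ s : CircleDeg1Liftˣ)
          (W S.M S.σ L.h s ((L.w ^ k : CircleDeg1Liftˣ) z))) := by
    rw [← S.step s]
    rfl
  unfold Loc.LI
  rw [h2]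
  refine le_trans ?_ h1
  have key : con2 L φ s k ≤ gain2 (S.σ s) (L.ρ s) L.u L.ε L.N L.ω
      (L.Q * rr (X - S.F s L.z₀)) := by
    unfold con2
    split_ifs with hev
    · rw [hX, L.phase_ev hφ hev]
      unfold gain2
      split_ifs with hN
      · exact le_rfl
      · have h3 : UU (L.ρ s) L.u (L.n s k + φ - L.v s) = 0 := by
          apply UU_supp L.hu (L.hρ s hs)
          have := L.hN s hs
          push Not at hN
          linarith
        rw [h3, mul_zero]
        have := L.hω0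
        simp only [abs_zero, mul_zero]
        linarith
    · unfold gain2
      push Not at hev
      rw [if_neg]
      rw [hX, not_le]
      exact L.phase_nev hφ hev
  have e : L.x₀ + (k * L.P + (φ + con2 L φ s k)) / L.Q
      = X + con2 L φ s k / L.Q := by
    rw [hX]; ring
  rw [e]
  have := div_le_div_of_nonneg_right key hQ.le
  linarith

end Pool.Agent.Helper66.RotZ
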