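import Pool.Agent.Helper66.Rot.Z1

/-!
Two general lemmas on level dynamics: `foreign` (a ladder of narrow teeth costs every class of
events at most one zone width) and `group2` (summing contributions over a block of rounds).
-/

namespace Pool.Agent.Helper66.RotZ

open CircleDeg1Lift Filter Topology Pool.Agent.Helper88.Rot

variable {m : ℕ} {θ : ℝ} {S : Sys m θ} (L : Loc S)

/-- number of events before stage `s` of round `k₁ + i` -/
noncomputable def cnt (k₁ i s : ℕ) : ℕ :=
  (∑ i' ∈ Finset.range i, ∑ s' ∈ Finset.range m, L.evc s' (k₁ + i'))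
    + ∑ s' ∈ Finset.range s, L.evc s' (k₁ + i)

theorem cnt_succ (k₁ i s : ℕ) : cnt L k₁ i (s + 1) = cnt L k₁ i s + L.evc s (k₁ + i) := by
  unfold cnt
  rw [Finset.sum_range_succ]
  ring

theorem cnt_round (k₁ i : ℕ) : cnt L k₁ (i + 1) 0 = cnt L k₁ i m := by
  unfold cnt
  rw [Finset.sum_range_succ]
  simp

theorem cnt_zero (k₁ : ℕ) : cnt L k₁ 0 0 = 0 := by simp [cnt]

theorem cnt_le (k₁ i s j : ℕ) (hi : i < j) (hs : s ≤ m) :
    cnt L k₁ i s ≤ ∑ i' ∈ Finset.range j, ∑ s' ∈ Finset.range m, L.evc s' (k₁ + i') := by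
  unfold cnt
  have c1 : (∑ s' ∈ Finset.range s, L.evc s' (k₁ + i)) ≤ ∑ s' ∈ Finset.range m, L.evc s' (k₁ + i) :=
    Finset.sum_le_sum_of_subset (Finset.range_subset_range.2 hs)
  have c2 : (∑ i' ∈ Finset.range (i + 1), ∑ s' ∈ Finset.range m, L.evc s' (k₁ + i'))
      ≤ ∑ i' ∈ Finset.range j, ∑ s' ∈ Finset.range m, L.evc s' (k₁ + i') :=
    Finset.sum_le_sum_of_subset (Finset.range_subset_range.2 hi)
  rw [Finset.sum_range_succ] at c2
  omega

/-- invariant of the foreign phase -/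
def Inv (J : ℕ) (y : ℕ → ℝ) (w Rw : ℝ) (Ys : ℕ → ℤ) (C : Finset (ℕ × ℤ)) (k₁ k₂ : ℕ) (φ₁ z : ℝ)
    (i s : ℕ) : Prop :=
  ∃ (φ : ℝ) (U : Finset (ℕ × ℤ)), U ⊆ C ∧ φ ≤ φ₁ ∧
    φ₁ - (U.card * (2 * Rw) + 5 * L.ω * cnt L k₁ i s + L.δ * i) ≤ φ ∧ L.LI z (k₁ + i) s φ ∧
    ∀ c ∈ U, ∀ k' < k₂, (k₁ + i < k' ∨ (k₁ + i = k' ∧ s ≤ c.1)) → |(L.n c.1 k' : ℝ)| ≤ L.N' →
      ∀ l < J, L.n c.1 k' - l * Ys c.1 = c.2 →
        φ ≤ L.ρ c.1 * y l - L.n c.1 k' + L.v c.1 - L.ρ c.1 * w

theorem foreign {J : ℕ} {y : ℕ → ℝ} {w Rw : ℝ} (bad : ℕ → Prop)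
    (hbρ : ∀ s < m, bad s → 0 < L.ρ s)
    (hgood : ∀ s < m, ¬ bad s → ∀ ξ, 0 ≤ S.σ s * UU (L.ρ s) L.u ξ)
    (hu0 : ∀ x, L.u x ≠ 0 → ∃ l < J, |x - y l| < w)
    (hubot : ∀ l < J, L.u (y l - w) = 0)
    (Ys : ℕ → ℤ) (C : Finset (ℕ × ℤ)) {k₁ k₂ : ℕ} (hk : k₁ ≤ k₂) {φ₁ Lmax E z : ℝ}
    (hC : ∀ s < m, bad s → ∀ k, k₁ ≤ k → k < k₂ → |(L.n s k : ℝ)| ≤ L.N' → ∀ l < J, ∀ φ,
      φ₁ - Lmax ≤ φ → φ ≤ φ₁ → |L.n s k + φ - L.v s - L.ρ s * y l| < L.ρ s * w →
      (s, L.n s k - l * Ys s) ∈ C)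
    (hmon : ∀ s < m, bad s → ∀ k k', k₁ ≤ k → k < k' → k' < k₂ → |(L.n s k : ℝ)| ≤ L.N' →
      |(L.n s k' : ℝ)| ≤ L.N' → ∀ l < J, ∀ l' < J, L.n s k - l * Ys s = L.n s k' - l' * Ys s →
      L.ρ s * y l - L.n s k ≤ L.ρ s * y l' - L.n s k')
    (hΦ : |φ₁| + Lmax ≤ L.Φm) (hRw0 : 0 ≤ Rw) (hρw : ∀ s < m, L.ρ s * w ≤ Rw)
    (hE : ((∑ i' ∈ Finset.range (k₂ - k₁), ∑ s' ∈ Finset.range m, L.evc s' (k₁ + i') : ℕ) : ℝ)
      ≤ E) (hδ : 0 ≤ L.δ)
    (hloss : C.card * (2 * Rw) + 5 * L.ω * E + L.δ * ((k₂ - k₁ : ℕ) : ℝ) ≤ Lmax)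
    (h : L.LL z k₁ φ₁) : L.LL z k₂ (φ₁ - Lmax) := by
  classical
  have hω := L.hω0
  have hεnn := L.hu.εnn
  -- bounds for levels satisfying the invariant
  have hbd : ∀ i s, i < k₂ - k₁ → s ≤ m → ∀ (φ : ℝ) (U : Finset (ℕ × ℤ)), U ⊆ C → φ ≤ φ₁ →
      φ₁ - (U.card * (2 * Rw) + 5 * L.ω * cnt L k₁ i s + L.δ * i) ≤ φ →
      φ₁ - Lmax ≤ φ ∧ |φ| ≤ L.Φm := by
    intro i s hi hs φ U hU h1 h2
    have a1 : (U.card : ℝ) * (2 * Rw) ≤ C.card * (2 * Rw) :=
      mul_le_mul_of_nonneg_right (by exact_mod_cast Finset.card_le_card hU) (by positivity)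
    have a2 : ((cnt L k₁ i s : ℕ) : ℝ) ≤ E := le_trans (by exact_mod_cast cnt_le L k₁ i s _ hi hs) hE
    have a3 := mul_le_mul_of_nonneg_left a2 (by positivity : 0 ≤ 5 * L.ω)
    have a4 : L.δ * i ≤ L.δ * ((k₂ - k₁ : ℕ) : ℝ) :=
      mul_le_mul_of_nonneg_left (by exact_mod_cast hi.le) hδ
    have a5 : φ₁ - Lmax ≤ φ := by linarith
    refine ⟨a5, ?_⟩
    have := abs_le.1 (le_refl |φ₁|)
    rw [abs_le]
    have h0 : 0 ≤ Lmax := by
      have := hloss
      have b1 : 0 ≤ (C.card : ℝ) * (2 * Rw) := by positivity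
      have b2 : 0 ≤ E := le_trans (by positivity) hE
      have b3 : 0 ≤ 5 * L.ω * E := by positivity
      have b4 : 0 ≤ L.δ * ((k₂ - k₁ : ℕ) : ℝ) := by positivity
      linarith
    constructor <;> linarith
  -- one stage
  have hstage : ∀ i s, i < k₂ - k₁ → s < m → Inv L J y w Rw Ys C k₁ k₂ φ₁ z i s →
      Inv L J y w Rw Ys C k₁ k₂ φ₁ z i (s + 1) := by
    rintro i s hi hs ⟨φ, U, hU, h1, h2, h3, h4⟩
    obtain ⟨hlo, hΦ'⟩ := hbd i s hi hs.le φ U hU h1 h2
    by_cases hev : |(L.n s (k₁ + i) : ℝ)| ≤ L.N'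
    · have hcnt : ((cnt L k₁ i (s + 1) : ℕ) : ℝ) = cnt L k₁ i s + 1 := by
        rw [cnt_succ]
        unfold Loc.evc
        rw [if_pos hev]
        push_cast
        ring
      by_cases hz : bad s ∧ UU (L.ρ s) L.u (L.n s (k₁ + i) + φ - L.v s) ≠ 0
      · obtain ⟨hb, hz⟩ := hz
        have hρ := hbρ s hs hb
        have hz' : L.u ((L.n s (k₁ + i) + φ - L.v s) / L.ρ s) ≠ 0 := by
          intro h0
          apply hz
          unfold UU
          rw [h0, mul_zero]
        obtain ⟨l, hl, hlw⟩ := hu0 _ hz'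
        have hlw' : |L.n s (k₁ + i) + φ - L.v s - L.ρ s * y l| < L.ρ s * w := by
          have e : L.n s (k₁ + i) + φ - L.v s - L.ρ s * y l
              = L.ρ s * ((L.n s (k₁ + i) + φ - L.v s) / L.ρ s - y l) := by field_simp
          rw [e, abs_mul, abs_of_pos hρ]
          exact mul_lt_mul_of_pos_left hlw hρ
        have hlw2 := abs_lt.1 hlw'
        set c : ℕ × ℤ := (s, L.n s (k₁ + i) - l * Ys s) with hc
        have hcC : c ∈ C := hC s hs hb (k₁ + i) (by omega) (by omega) hev l hl φ hlo h1 hlw'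
        have hcU : c ∉ U := by
          intro hcU
          have := h4 c hcU (k₁ + i) (by omega) (Or.inr ⟨rfl, le_rfl⟩) hev l hl rfl
          simp only [hc] at this
          linarith [hlw2.1]
        -- the bottom of the zone
        set b : ℝ := L.ρ s * y l - L.n s (k₁ + i) + L.v s - L.ρ s * w with hb'
        have hbφ : b ≤ φ := by linarith [hlw2.1]
        have hφb : φ ≤ b + 2 * Rw := by
          have := hρw s hs
          linarith [hlw2.2]
        have h3' : L.LI z (k₁ + i) s b := h3.mono hbφ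
        have hcard : ((insert c U).card : ℝ) = U.card + 1 := by
          rw [Finset.card_insert_of_notMem hcU]
          push_cast
          ring
        have hins : insert c U ⊆ C := Finset.insert_subset hcC hU
        have hblo : φ₁ - ((insert c U).card * (2 * Rw) + 5 * L.ω * cnt L k₁ i s + L.δ * i) ≤ b := by
          rw [hcard]
          linarith
        obtain ⟨-, hΦb⟩ := hbd i s hi hs.le b (insert c U) hins (by linarith) hblo
        have hst := LI_step2 L hs hΦb h3'
        have hcon : con2 L b s (k₁ + i) = - (5 * L.ω) := by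
          unfold con2
          rw [if_pos hev]
          have h0 : UU (L.ρ s) L.u (L.n s (k₁ + i) + b - L.v s) = 0 := by
            unfold UU
            have e : (L.n s (k₁ + i) + b - L.v s) / L.ρ s = y l - w := by
              rw [hb']
              field_simp
              ring
            rw [e, hubot l hl, mul_zero]
          rw [h0]
          simp
        rw [hcon] at hst
        refine ⟨b + -(5 * L.ω), insert c U, hins, by linarith, ?_, hst, ?_⟩
        · rw [hcnt]
          linarith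
        · intro c' hc' k' hk' hlex hev' l' hl' hcl
          rcases Finset.mem_insert.1 hc' with rfl | hc'
          · simp only [hc] at hlex hev' hcl ⊢
            have hkk : k₁ + i < k' := by
              rcases hlex with h | h
              · exact h
              · omega
            have := hmon s hs hb (k₁ + i) k' (by omega) hkk hk' hev hev' l hl l' hl' hcl.symm
            linarith
          · have := h4 c' hc' k' hk' (by
              rcases hlex with h | h
              · exact Or.inl h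
              · exact Or.inr ⟨h.1, by omega⟩) hev' l' hl' hcl
            linarith
      · -- no loss
        have hcon : - (5 * L.ω) ≤ con2 L φ s (k₁ + i) := by
          unfold con2
          rw [if_pos hev]
          set x := (S.σ s : ℝ) * UU (L.ρ s) L.u (L.n s (k₁ + i) + φ - L.v s) with hx
          have hx0 : 0 ≤ x := by
            by_cases hb : bad s
            · have : UU (L.ρ s) L.u (L.n s (k₁ + i) + φ - L.v s) = 0 := by
                by_contra hne
                exact hz ⟨hb, hne⟩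
              rw [hx, this, mul_zero]
            · exact hgood s hs hb _
          rw [abs_of_nonneg hx0]
          have h5 : 2 * L.ε * x ≤ 1 * x :=
            mul_le_mul_of_nonneg_right (by linarith [L.hε]) hx0
          linarith
        have hst := (LI_step2 L hs hΦ' h3).mono (add_le_add_right hcon φ)
        refine ⟨φ + -(5 * L.ω), U, hU, by linarith, ?_, hst, ?_⟩
        · rw [hcnt]
          linarith
        · intro c' hc' k' hk' hlex hev' l' hl' hcl
          have := h4 c' hc' k' hk' (by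
            rcases hlex with h | h
            · exact Or.inl h
            · exact Or.inr ⟨h.1, by omega⟩) hev' l' hl' hcl
          linarith
    · have hst := LI_step2 L hs hΦ' h3
      have hcon : con2 L φ s (k₁ + i) = 0 := by
        unfold con2
        rw [if_neg hev]
      rw [hcon, add_zero] at hst
      refine ⟨φ, U, hU, h1, ?_, hst, ?_⟩
      · have : cnt L k₁ i (s + 1) = cnt L k₁ i s := by
          rw [cnt_succ]
          unfold Loc.evc
          rw [if_neg hev, add_zero]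
        rw [this]
        exact h2
      · intro c' hc' k' hk' hlex hev' l' hl' hcl
        exact h4 c' hc' k' hk' (by
          rcases hlex with h | h
          · exact Or.inl h
          · exact Or.inr ⟨h.1, by omega⟩) hev' l' hl' hcl
  -- one round
  have hround : ∀ i, i < k₂ - k₁ → Inv L J y w Rw Ys C k₁ k₂ φ₁ z i 0 →
      Inv L J y w Rw Ys C k₁ k₂ φ₁ z (i + 1) 0 := by
    intro i hi h0
    have hs : ∀ s ≤ m, Inv L J y w Rw Ys C k₁ k₂ φ₁ z i s := by
      intro s
      induction s with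
      | zero => intro _; exact h0
      | succ s ih => intro hs; exact hstage i s hi (by omega) (ih (by omega))
    obtain ⟨φ, U, hU, h1, h2, h3, h4⟩ := hs m le_rfl
    refine ⟨φ - L.δ, U, hU, by linarith, ?_, L.LL_end h3, ?_⟩
    · rw [cnt_round]
      push_cast
      linarith
    · intro c' hc' k' hk' hlex hev' l' hl' hcl
      have := h4 c' hc' k' hk' (by
        rcases hlex with h | h
        · exact Or.inl (by omega)
        · exact Or.inl (by omega)) hev' l' hl' hcl
      linarith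
  have hall : ∀ i ≤ k₂ - k₁, Inv L J y w Rw Ys C k₁ k₂ φ₁ z i 0 := by
    intro i
    induction i with
    | zero =>
      intro _
      refine ⟨φ₁, ∅, Finset.empty_subset _, le_rfl, ?_, ?_, ?_⟩
      · rw [cnt_zero]
        simp
      · exact h
      · intro c hc
        exact absurd hc (Finset.notMem_empty c)
    | succ i ih => intro hi; exact hround i (by omega) (ih (by omega))
  obtain ⟨φ, U, hU, h1, h2, h3, -⟩ := hall (k₂ - k₁) le_rfl
  have e : k₁ + (k₂ - k₁) = k₂ := by omega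
  rw [e] at h3
  refine h3.mono ?_
  have a1 : (U.card : ℝ) * (2 * Rw) ≤ C.card * (2 * Rw) :=
    mul_le_mul_of_nonneg_right (by exact_mod_cast Finset.card_le_card hU) (by positivity)
  have a2 : ((cnt L k₁ (k₂ - k₁) 0 : ℕ) : ℝ) ≤ E := by
    refine le_trans ?_ hE
    unfold cnt
    simp
  have a3 := mul_le_mul_of_nonneg_left a2 (by positivity : 0 ≤ 5 * L.ω)
  linarith

/-- summing contributions over a block of rounds -/
theorem group2 {z : ℝ} {k₁ : ℕ} (j : ℕ) {ψ D : ℝ} (c e : ℕ → ℕ → ℝ)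
    (hce : ∀ s < m, ∀ k, |c s k| ≤ e s k)
    (hδ : 0 ≤ L.δ)
    (hD : (∑ i ∈ Finset.range j, ∑ s ∈ Finset.range m, e s (k₁ + i)) + L.δ * j ≤ D)
    (hstep : ∀ k, k₁ ≤ k → k < k₁ + j → ∀ s < m, ∀ φ, |φ - ψ| ≤ D → L.LI z k s φ →
      L.LI z k (s + 1) (φ + c s k))
    (h : L.LL z k₁ ψ) :
    L.LL z (k₁ + j) (ψ + (∑ i ∈ Finset.range j, ∑ s ∈ Finset.range m, c s (k₁ + i)) - L.δ * j) := by
  have he0 : ∀ s < m, ∀ k, 0 ≤ e s k := fun s hs k => (abs_nonneg _).trans (hce s hs k)
  have hdev : ∀ j' < j, ∀ s ≤ m,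
      |(∑ i ∈ Finset.range j', ∑ s ∈ Finset.range m, c s (k₁ + i))
        + (∑ s' ∈ Finset.range s, c s' (k₁ + j')) - L.δ * j'| ≤ D := by
    intro j' hj' s hs
    have b1 : |∑ i ∈ Finset.range j', ∑ s ∈ Finset.range m, c s (k₁ + i)|
        ≤ ∑ i ∈ Finset.range j', ∑ s ∈ Finset.range m, e s (k₁ + i) := by
      refine (Finset.abs_sum_le_sum_abs _ _).trans (Finset.sum_le_sum fun k _ => ?_)
      refine (Finset.abs_sum_le_sum_abs _ _).trans (Finset.sum_le_sum fun s' hs' => ?_)
      exact hce s' (Finset.mem_range.1 hs') _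
    have b2 : |∑ s' ∈ Finset.range s, c s' (k₁ + j')| ≤ ∑ s' ∈ Finset.range s, e s' (k₁ + j') := by
      refine (Finset.abs_sum_le_sum_abs _ _).trans (Finset.sum_le_sum fun s' hs' => ?_)
      exact hce s' ((Finset.mem_range.1 hs').trans_le hs) _
    have b3 : (∑ i ∈ Finset.range j', ∑ s ∈ Finset.range m, e s (k₁ + i))
        + (∑ s' ∈ Finset.range s, e s' (k₁ + j'))
        ≤ ∑ i ∈ Finset.range j, ∑ s ∈ Finset.range m, e s (k₁ + i) := by
      have c1 : (∑ s' ∈ Finset.range s, e s' (k₁ + j')) ≤ ∑ s' ∈ Finset.range m, e s' (k₁ + j') :=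
        Finset.sum_le_sum_of_subset_of_nonneg (Finset.range_subset_range.2 hs)
          fun s' hs' _ => he0 s' (Finset.mem_range.1 hs') _
      have c2 : (∑ i ∈ Finset.range (j' + 1), ∑ s' ∈ Finset.range m, e s' (k₁ + i))
          ≤ ∑ i ∈ Finset.range j, ∑ s' ∈ Finset.range m, e s' (k₁ + i) :=
        Finset.sum_le_sum_of_subset_of_nonneg (Finset.range_subset_range.2 hj')
          fun i _ _ => Finset.sum_nonneg fun s' hs' => he0 s' (Finset.mem_range.1 hs') _
      rw [Finset.sum_range_succ] at c2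
      linarith
    have b5 : L.δ * j' ≤ L.δ * j := mul_le_mul_of_nonneg_left (by exact_mod_cast hj'.le) hδ
    have b6 : 0 ≤ L.δ * j' := by positivity
    have b7 : 0 ≤ L.δ * j := by positivity
    have b8 : 0 ≤ ∑ i ∈ Finset.range j', ∑ s ∈ Finset.range m, e s (k₁ + i) :=
      Finset.sum_nonneg fun i _ => Finset.sum_nonneg fun s' hs' => he0 s' (Finset.mem_range.1 hs') _
    have b9 : 0 ≤ ∑ s' ∈ Finset.range s, e s' (k₁ + j') :=
      Finset.sum_nonneg fun s' hs' => he0 s' ((Finset.mem_range.1 hs').trans_le hs) _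
    rw [abs_le] at b1 b2 ⊢
    constructor <;> linarith [b1.1, b1.2, b2.1, b2.2]
  have main : ∀ j' ≤ j, L.LL z (k₁ + j')
      (ψ + (∑ i ∈ Finset.range j', ∑ s ∈ Finset.range m, c s (k₁ + i)) - L.δ * j') := by
    intro j'
    induction j' with
    | zero => intro _; simpa using h
    | succ j' ih =>
      intro hj'
      have h1 := ih (by omega)
      have h2 : ∀ s ≤ m, L.LI z (k₁ + j') s
          ((ψ + (∑ i ∈ Finset.range j', ∑ s ∈ Finset.range m, c s (k₁ + i)) - L.δ * j')
            + ∑ s' ∈ Finset.range s, c s' (k₁ + j')) := by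
        intro s
        induction s with
        | zero =>
          intro _
          rw [Finset.sum_range_zero, add_zero]
          exact h1
        | succ s ihs =>
          intro hs
          have h3 := ihs (by omega)
          have h4 := hdev j' (by omega) s (by omega)
          have e : (ψ + (∑ i ∈ Finset.range j', ∑ s ∈ Finset.range m, c s (k₁ + i)) - L.δ * j')
              + ∑ s' ∈ Finset.range s, c s' (k₁ + j') - ψ
              = (∑ i ∈ Finset.range j', ∑ s ∈ Finset.range m, c s (k₁ + i))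
                + (∑ s' ∈ Finset.range s, c s' (k₁ + j')) - L.δ * j' := by ring
          rw [← e] at h4
          have h5 := hstep (k₁ + j') (by omega) (by omega) s (by omega) _ h4 h3
          rw [Finset.sum_range_succ, ← add_assoc]
          exact h5
      have h3 := L.LL_end (h2 m le_rfl)
      have e : (ψ + (∑ i ∈ Finset.range j', ∑ s ∈ Finset.range m, c s (k₁ + i)) - L.δ * j')
            + ∑ s' ∈ Finset.range m, c s' (k₁ + j') - L.δ
          = ψ + (∑ i ∈ Finset.range (j' + 1), ∑ s ∈ Finset.range m, c s (k₁ + i))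
            - L.δ * ((j' + 1 : ℕ) : ℝ) := by
        rw [Finset.sum_range_succ]
        push_cast
        ring
      rw [e] at h3
      exact h3
  exact main j le_rfl

end Pool.Agent.Helper66.RotZ
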