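import Pool.Agent.Helper66.Rot.Z2
import Pool.Agent.Helper88.Rot.CaseA

/-!
The ladder: an abstract set of data that forces a gain after one full period.
-/

namespace Pool.Agent.Helper66.RotZ

open CircleDeg1Lift Filter Topology Pool.Agent.Helper88.Rot

variable {m : ℕ} {θ : ℝ} {S : Sys m θ}

/-- the times of the stages `s`, `s'` differ by at most `x * q` (modulo `Q`) -/
def near (L : Loc S) (q s s' : ℕ) (x : ℝ) : Prop :=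
  ∃ i : ℤ, |((q * (L.a s - L.a s') - i * L.Q : ℤ) : ℝ)| ≤ x * q

/-- all data of a ladder -/
structure Lad (L : Loc S) where
  (q H' g J Y N₀ Nc s₁ : ℕ)
  (B r w R d o D τ E Gb : ℝ)
  G : Finset ℕ
  c : ℕ → ℤ
  Ys : ℕ → ℤ
  hq : 0 < q
  hPb : L.P * q ≡ 1 [ZMOD L.Q]
  hs₁ : s₁ < m
  ha : L.a s₁ = -((H' : ℤ) + (g + 17))
  hQ1 : 2 * q * (H' + (g + 17)) ≤ L.Q
  hQ2 : L.Q ≤ 2 * q * (H' + (g + 17) + 1)
  hH : 4 * L.N' + 4 * g + 100 ≤ (H' : ℝ)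
  hN0N : (N₀ : ℝ) + J * Y + g + 40 ≤ L.N'
  hB : L.ρ s₁ = B
  hB0 : 0 < B
  hr : 0 < r
  hJr : 3 ≤ J * r
  hJr' : J * r ≤ 4
  hY : g + (g + 17) + 17 ≤ Y
  hYs : ∀ s < m, 0 < L.ρ s → |L.ρ s / B * Y - Ys s| ≤ L.ρ s / B * r / 2 ∧ 1 ≤ Ys s
  hN₀ : ∀ s < m, 0 < L.ρ s → L.ρ s ≠ B →
    12 + J * Y + g + (g + 17) + L.ρ s / B * (J * Y + 4) < |L.ρ s / B - 1| * N₀
  hR : ∀ s < m, L.ρ s ≤ R
  hw0 : 0 ≤ w
  hRw : R * w ≤ 1
  hNc : 5 + 6 * R / B ≤ Nc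
  hlossC : (m * Nc : ℝ) * (2 * (R * w)) ≤ 1 / 8
  hE : m * (2 * L.N' + 1) ≤ E
  hωE : 5 * L.ω * E ≤ 1 / 8
  hωE' : 5 * L.ω * E ≤ B * L.A / 8
  hδ : 0 < L.δ
  hδQ : L.δ * L.Q < 1
  hδY : L.δ * (q * Y) ≤ B * L.A / 8
  hrBA : r = B * L.A / 2
  hD : D = 3 * (m * (B * L.A))
  hεD : m * (L.ε * (D + o) + 2 * L.ε * (B * L.A)) ≤ B * L.A / 8
  ho : 0 ≤ o
  hdd : B * w + D + o < d
  hd1 : d ≤ 1
  hτ : τ = 1 ∨ τ = -1
  hG : ∀ s ∈ G, s < m ∧ L.ρ s = B ∧ |L.v s - L.v s₁ - c s| ≤ o ∧ |(c s : ℝ)| ≤ 1 ∧ near L q s s₁ g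
  hnet : 1 ≤ τ * ∑ s ∈ G, (S.σ s : ℝ)
  hfar : ∀ s < m, near L q s s₁ g ∨ ¬ near L q s s₁ Gb
  hGb : L.N' + N₀ + (g + 17) + J * Y ≤ Gb
  hnG : ∀ s < m, L.ρ s = B → near L q s s₁ g → s ∉ G → ∀ n : ℤ, d ≤ |L.v s - L.v s₁ - n|
  hΦm : 12 ≤ L.Φm
  hu0 : ∀ x, L.u x ≠ 0 → ∃ l < J, |x - (N₀ + l * Y + l * r) / B| < w
  hubot : ∀ l < J, L.u ((N₀ + (l : ℕ) * Y + (l : ℕ) * r) / B - w) = 0
  huc : ∀ l < J, L.u ((N₀ + (l : ℕ) * Y + (l : ℕ) * r) / B) = τ * L.A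
  husign : ∀ x, 0 ≤ τ * L.u x

namespace Lad
variable {L : Loc S} (Λ : Lad L)
include Λ

theorem N'0 : 40 ≤ L.N' := by
  have := Λ.hN0N
  have h1 : (0 : ℝ) ≤ Λ.N₀ := by positivity
  have h2 : (0 : ℝ) ≤ (Λ.J : ℝ) * Λ.Y := by positivity
  have h3 : (0 : ℝ) ≤ Λ.g := by positivity
  linarith

theorem q0 : (0 : ℝ) < Λ.q := by exact_mod_cast Λ.hq

theorem Qbig : 8 * L.N' * Λ.q + 8 * Λ.g * Λ.q + 200 * Λ.q ≤ (L.Q : ℝ) := by
  have h1 : (2 * Λ.q * (Λ.H' + (Λ.g + 17)) : ℝ) ≤ L.Q := by exact_mod_cast Λ.hQ1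
  have h2 := mul_le_mul_of_nonneg_left Λ.hH (by have := Λ.q0; positivity : (0 : ℝ) ≤ 2 * Λ.q)
  have h3 : (0 : ℝ) ≤ 2 * Λ.q * (Λ.g + 17) := by positivity
  linarith

theorem NQ : 2 * L.N' < (L.Q : ℝ) := by
  have h1 := Λ.Qbig
  have h2 := Λ.q0
  have h3 : (1 : ℝ) ≤ Λ.q := by exact_mod_cast Λ.hq
  have h4 := Λ.N'0
  have h5 : 8 * L.N' * 1 ≤ 8 * L.N' * Λ.q := mul_le_mul_of_nonneg_left h3 (by linarith)
  have h6 : 0 ≤ 8 * (Λ.g : ℝ) * Λ.q := by positivity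
  linarith

/-- times of near stages -/
theorem T1 {s : ℕ} (hs : near L Λ.q s Λ.s₁ Λ.g) : ∃ Es : ℤ, |(Es : ℝ)| ≤ Λ.g * Λ.q ∧
    ∀ n : ℤ, |(n : ℝ)| ≤ L.N' → (L.kk Λ.q s n : ℤ) = Λ.q * (n + Λ.H' + (Λ.g + 17)) - Es := by
  obtain ⟨i, hi⟩ := hs
  refine ⟨Λ.q * (L.a s - L.a Λ.s₁) - i * L.Q, hi, fun n hn => ?_⟩
  set Es : ℤ := Λ.q * (L.a s - L.a Λ.s₁) - i * L.Q with hEs
  rw [L.kk_cast]
  have e : (n - L.a s) * (Λ.q : ℤ) = (Λ.q * (n + Λ.H' + (Λ.g + 17)) - Es) + L.Q * (-i) := by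
    rw [hEs, Λ.ha]; ring
  rw [e, Int.add_mul_emod_self_left]
  have hq := Λ.q0
  have hi' := abs_le.1 hi
  have hn' := abs_le.1 hn
  have hH := Λ.hH
  have hN := Λ.N'0
  have hg : (0 : ℝ) ≤ Λ.g := by positivity
  apply Int.emod_eq_of_lt
  · have : (0 : ℝ) ≤ ((Λ.q * (n + Λ.H' + (Λ.g + 17)) - Es : ℤ) : ℝ) := by
      push_cast
      have h1 : (0 : ℝ) ≤ Λ.q * (n + Λ.H' + (Λ.g + 17) - Λ.g) := by
        apply mul_nonneg hq.le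
        linarith
      have h2 : (Es : ℝ) ≤ Λ.g * Λ.q := hi'.2
      linarith
    exact_mod_cast this
  · have : ((Λ.q * (n + Λ.H' + (Λ.g + 17)) - Es : ℤ) : ℝ) < ((L.Q : ℤ) : ℝ) := by
      push_cast
      have h1 : (2 * Λ.q * (Λ.H' + (Λ.g + 17)) : ℝ) ≤ L.Q := by exact_mod_cast Λ.hQ1
      have h2 : -(Λ.g * Λ.q : ℝ) ≤ Es := hi'.1
      have h3 : (Λ.q : ℝ) * (n + Λ.g) < Λ.q * (Λ.H' + (Λ.g + 17)) := by
        apply mul_lt_mul_of_pos_left _ hq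
        linarith
      linarith
    exact_mod_cast this

/-- far stages have no events during the ladder -/
theorem T2 {s : ℕ} (hs : ¬ near L Λ.q s Λ.s₁ Λ.Gb) {n : ℤ} (hn : |(n : ℝ)| ≤ L.N')
    (h1 : Λ.q * (Λ.N₀ + Λ.H') ≤ L.kk Λ.q s n)
    (h2 : L.kk Λ.q s n < Λ.q * (Λ.N₀ + Λ.J * Λ.Y + Λ.H')) : False := by
  apply hs
  set k := L.kk Λ.q s n with hk
  have hkc : (k : ℤ) = ((n - L.a s) * (Λ.q : ℤ)) % (L.Q : ℤ) := L.kk_cast _ _ _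
  have hdm := Int.mul_ediv_add_emod ((n - L.a s) * (Λ.q : ℤ)) (L.Q : ℤ)
  rw [← hkc] at hdm
  refine ⟨-(((n - L.a s) * (Λ.q : ℤ)) / (L.Q : ℤ)), ?_⟩
  set i := ((n - L.a s) * (Λ.q : ℤ)) / (L.Q : ℤ) with hi
  have e : (Λ.q : ℤ) * (L.a s - L.a Λ.s₁) - (-i) * L.Q
      = Λ.q * (n + Λ.H' + (Λ.g + 17)) - k := by
    rw [Λ.ha]
    linarith
  rw [e]
  push_cast
  have h1' : (Λ.q : ℝ) * (Λ.N₀ + Λ.H') ≤ k := by exact_mod_cast h1
  have h2' : (k : ℝ) < Λ.q * (Λ.N₀ + Λ.J * Λ.Y + Λ.H') := by exact_mod_cast h2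
  have hn' := abs_le.1 hn
  have hq := Λ.q0
  have hGb := mul_le_mul_of_nonneg_right Λ.hGb hq.le
  have h3 : (Λ.q : ℝ) * n ≤ Λ.q * L.N' := mul_le_mul_of_nonneg_left hn'.2 hq.le
  have h4 : (Λ.q : ℝ) * (-L.N') ≤ Λ.q * n := mul_le_mul_of_nonneg_left hn'.1 hq.le
  have h5 : (0 : ℝ) ≤ Λ.q * Λ.N₀ := by positivity
  have h6 : (0 : ℝ) ≤ Λ.q * (Λ.J * Λ.Y) := by positivity
  have h7 : (0 : ℝ) ≤ Λ.q * (Λ.g + 17) := by positivity
  rw [abs_le]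
  constructor <;> linarith

/-- events of a fixed stage come in increasing order -/
theorem T3 {s k k' : ℕ} (hkk : k < k') (hk' : k' < L.Q) (hlen : 4 * ((k' - k : ℕ) : ℝ) ≤ 3 * L.Q)
    (hn : |(L.n s k : ℝ)| ≤ L.N') (hn' : |(L.n s k' : ℝ)| ≤ L.N') : L.n s k < L.n s k' := by
  have e1 : (k : ℤ) = ((L.n s k - L.a s) * (Λ.q : ℤ)) % (L.Q : ℤ) := by
    rw [← L.kk_cast, L.kk_n Λ.hPb s (hkk.trans hk')]
  have e2 : (k' : ℤ) = ((L.n s k' - L.a s) * (Λ.q : ℤ)) % (L.Q : ℤ) := by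
    rw [← L.kk_cast, L.kk_n Λ.hPb s hk']
  have d1 := Int.mul_ediv_add_emod ((L.n s k - L.a s) * (Λ.q : ℤ)) (L.Q : ℤ)
  have d2 := Int.mul_ediv_add_emod ((L.n s k' - L.a s) * (Λ.q : ℤ)) (L.Q : ℤ)
  rw [← e1] at d1
  rw [← e2] at d2
  set i := ((L.n s k - L.a s) * (Λ.q : ℤ)) / (L.Q : ℤ)
  set i' := ((L.n s k' - L.a s) * (Λ.q : ℤ)) / (L.Q : ℤ)
  have e3 : (k' : ℤ) - k = Λ.q * (L.n s k' - L.n s k) + L.Q * (i - i') := by linarith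
  have e3' : (k' : ℝ) - k = Λ.q * (L.n s k' - L.n s k) + L.Q * ((i - i' : ℤ) : ℝ) := by
    push_cast
    exact_mod_cast e3
  have hkk' : ((k' - k : ℕ) : ℝ) = k' - k := by
    rw [Nat.cast_sub hkk.le]
  rw [hkk'] at hlen
  have hpos : (0 : ℝ) < k' - k := by
    have : (k : ℝ) < k' := by exact_mod_cast hkk
    linarith
  have hq := Λ.q0
  have hb : |(Λ.q : ℝ) * (L.n s k' - L.n s k)| ≤ Λ.q * (2 * L.N') := by
    rw [abs_mul, abs_of_pos hq]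
    apply mul_le_mul_of_nonneg_left _ hq.le
    have := abs_sub (L.n s k' : ℝ) (L.n s k)
    linarith
  have hb' := abs_le.1 hb
  have hQ := Λ.Qbig
  have hg : (0 : ℝ) ≤ 8 * Λ.g * Λ.q := by positivity
  have hQ0 := L.Qpos
  have hi0 : i - i' = 0 := by
    have h1 : -1 < i - i' := by
      have : (-1 : ℝ) < ((i - i' : ℤ) : ℝ) := by
        by_contra hcon
        push Not at hcon
        have := mul_le_mul_of_nonneg_left hcon hQ0.le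
        linarith
      exact_mod_cast this
    have h2 : i - i' < 1 := by
      have : ((i - i' : ℤ) : ℝ) < 1 := by
        by_contra hcon
        push Not at hcon
        have := mul_le_mul_of_nonneg_left hcon hQ0.le
        linarith
      exact_mod_cast this
    omega
  rw [hi0] at e3'
  simp only [Int.cast_zero, mul_zero, add_zero] at e3'
  rw [e3'] at hpos
  have : (0 : ℝ) < (L.n s k' : ℝ) - L.n s k := pos_of_mul_pos_right hpos hq.le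
  have : (L.n s k : ℝ) < L.n s k' := by linarith
  exact_mod_cast this

/-- number of events -/
theorem evc_le {k₁ j : ℕ} (hj : k₁ + j ≤ L.Q) :
    ((∑ i' ∈ Finset.range j, ∑ s' ∈ Finset.range m, L.evc s' (k₁ + i') : ℕ) : ℝ) ≤ Λ.E := by
  have h1 := L.sum_evc Λ.hPb hj ⌊L.N'⌋ (fun n => abs_floor_iff L.N' n) Λ.NQ
  rw [h1]
  have h2 : (∑ s ∈ Finset.range m, ∑ n ∈ Finset.Icc (-⌊L.N'⌋) ⌊L.N'⌋,
      (if k₁ ≤ L.kk Λ.q s n ∧ L.kk Λ.q s n < k₁ + j then 1 else 0))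
      ≤ ∑ s ∈ Finset.range m, (2 * ⌊L.N'⌋ + 1).toNat := by
    refine Finset.sum_le_sum fun s _ => ?_
    calc _ ≤ ∑ n ∈ Finset.Icc (-⌊L.N'⌋) ⌊L.N'⌋, 1 := by
          refine Finset.sum_le_sum fun n _ => ?_
          split_ifs <;> simp
      _ = _ := by
        rw [Finset.sum_const, Int.card_Icc, smul_eq_mul, mul_one]
        congr 1
        ring
  have h3 : ((2 * ⌊L.N'⌋ + 1).toNat : ℝ) ≤ 2 * L.N' + 1 := by
    have h4 : (0 : ℤ) ≤ ⌊L.N'⌋ := Int.floor_nonneg.2 (by linarith [Λ.N'0])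
    have h5 : (((2 * ⌊L.N'⌋ + 1).toNat : ℤ) : ℝ) = ((2 * ⌊L.N'⌋ + 1 : ℤ) : ℝ) := by
      rw [Int.toNat_of_nonneg (by omega)]
    have h6 : (((2 * ⌊L.N'⌋ + 1).toNat : ℕ) : ℝ) = (((2 * ⌊L.N'⌋ + 1).toNat : ℤ) : ℝ) := by
      norm_cast
    rw [h6, h5]
    push_cast
    have := Int.floor_le L.N'
    linarith
  calc ((_ : ℕ) : ℝ) ≤ ((∑ s ∈ Finset.range m, (2 * ⌊L.N'⌋ + 1).toNat : ℕ) : ℝ) := by
        exact_mod_cast h2
    _ = m * ((2 * ⌊L.N'⌋ + 1).toNat : ℝ) := by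
        push_cast
        rw [Finset.sum_const, Finset.card_range, nsmul_eq_mul]
    _ ≤ m * (2 * L.N' + 1) := mul_le_mul_of_nonneg_left h3 (by positivity)
    _ ≤ Λ.E := Λ.hE

/-- the foreign phases -/
theorem foreign_phase {k₁ k₂ : ℕ} (hk : k₁ ≤ k₂) (hk₂ : k₂ ≤ L.Q)
    (hlen : 4 * ((k₂ - k₁ : ℕ) : ℝ) ≤ 3 * L.Q) {φ₁ z : ℝ} (hφ₁ : |φ₁| ≤ 8)
    (h : L.LL z k₁ φ₁) :
    L.LL z k₂ (φ₁ - (1 / 4 + L.δ * ((k₂ - k₁ : ℕ) : ℝ))) := by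
  classical
  have hQ0 := L.Qpos
  have hδk : L.δ * ((k₂ - k₁ : ℕ) : ℝ) ≤ 3 / 4 := by
    have h1 := mul_le_mul_of_nonneg_left hlen Λ.hδ.le
    have h2 := Λ.hδQ
    linarith
  have hδk0 : 0 ≤ L.δ * ((k₂ - k₁ : ℕ) : ℝ) := mul_nonneg Λ.hδ.le (by positivity)
  set lo : ℕ → ℝ := fun s => L.ρ s / Λ.B * Λ.N₀ - φ₁ - 1 with hlo
  set C : Finset (ℕ × ℤ) := (Finset.range m ×ˢ Finset.range Λ.Nc).image
    fun x => (x.1, ⌊lo x.1⌋ + 1 + (x.2 : ℤ)) with hC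
  have hcard : (C.card : ℝ) ≤ m * Λ.Nc := by
    have h1 : C.card ≤ m * Λ.Nc := by
      refine Finset.card_image_le.trans ?_
      rw [Finset.card_product, Finset.card_range, Finset.card_range]
    exact_mod_cast h1
  have hR0 : 0 ≤ Λ.R := (L.hρ _ Λ.hs₁).trans (Λ.hR _ Λ.hs₁)
  have hRw0 : 0 ≤ Λ.R * Λ.w := mul_nonneg hR0 Λ.hw0
  refine foreign L (J := Λ.J) (y := fun l => (Λ.N₀ + l * Λ.Y + l * Λ.r) / Λ.B) (w := Λ.w)
    (Rw := Λ.R * Λ.w) (fun s => (S.σ s : ℝ) * Λ.τ < 0 ∧ 0 < L.ρ s) (fun s _ hb => hb.2) ?_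
    Λ.hu0 Λ.hubot Λ.Ys C hk (E := Λ.E) ?_ ?_ ?_ hRw0 ?_ ?_ Λ.hδ.le ?_ h
  · -- good stages
    intro s hs hb ξ
    rw [not_and_or] at hb
    rcases hb with hb | hb
    · push Not at hb
      have h1 := Λ.husign (ξ / L.ρ s)
      have h2 := L.hρ s hs
      unfold UU
      rcases Λ.hτ with h | h
      · rw [h, mul_one] at hb
        rw [h, one_mul] at h1
        positivity
      · rw [h] at h1 hb
        have h3 : 0 ≤ -(L.u (ξ / L.ρ s)) := by linarith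
        have h4 : 0 ≤ -(S.σ s : ℝ) := by linarith
        have h5 := mul_nonneg h4 (mul_nonneg h2 h3)
        have e : -(S.σ s : ℝ) * (L.ρ s * -(L.u (ξ / L.ρ s)))
            = S.σ s * (L.ρ s * L.u (ξ / L.ρ s)) := by ring
        rwa [e] at h5
    · push Not at hb
      have h0 : L.ρ s = 0 := le_antisymm hb (L.hρ s hs)
      unfold UU
      rw [h0, zero_mul, mul_zero]
  · -- the classes
    intro s hs hb k _ _ _ l hl φ hφl hφu hz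
    have hρ := hb.2
    obtain ⟨hY1, hY2⟩ := Λ.hYs s hs hρ
    have hRs := Λ.hR s hs
    set κ := L.ρ s / Λ.B with hκ
    have hκ0 : 0 < κ := div_pos hρ Λ.hB0
    have hκR : κ ≤ Λ.R / Λ.B := div_le_div_of_nonneg_right hRs Λ.hB0.le
    have e1 : L.ρ s * ((Λ.N₀ + l * Λ.Y + l * Λ.r) / Λ.B) = κ * (Λ.N₀ + l * Λ.Y + l * Λ.r) := by
      rw [hκ]; ring
    simp only [e1] at hz
    have hz' := abs_lt.1 hz
    have hw1 : L.ρ s * Λ.w ≤ 1 := (mul_le_mul_of_nonneg_right hRs Λ.hw0).trans Λ.hRw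
    have hY1' := abs_le.1 hY1
    have hv0 := L.v_nonneg s
    have hv1 := L.v_lt s
    -- slope
    have hsl0 : 0 ≤ κ * Λ.Y - Λ.Ys s + κ * Λ.r := by
      have : 0 ≤ κ * Λ.r / 2 := by have := Λ.hr; positivity
      linarith
    have hsl1 : κ * Λ.Y - Λ.Ys s + κ * Λ.r ≤ κ * (3 / 2 * Λ.r) := by linarith
    have hlJ : (l : ℝ) ≤ Λ.J := by exact_mod_cast hl.le
    have hl0 : (0 : ℝ) ≤ l := by positivity
    have hls0 : 0 ≤ l * (κ * Λ.Y - Λ.Ys s + κ * Λ.r) := mul_nonneg hl0 hsl0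
    have hls1 : l * (κ * Λ.Y - Λ.Ys s + κ * Λ.r) ≤ 6 * κ := by
      calc l * (κ * Λ.Y - Λ.Ys s + κ * Λ.r) ≤ l * (κ * (3 / 2 * Λ.r)) :=
            mul_le_mul_of_nonneg_left hsl1 hl0
        _ ≤ Λ.J * (κ * (3 / 2 * Λ.r)) := mul_le_mul_of_nonneg_right hlJ (by
            have := Λ.hr; positivity)
        _ = 3 / 2 * κ * (Λ.J * Λ.r) := by ring
        _ ≤ 3 / 2 * κ * 4 := mul_le_mul_of_nonneg_left Λ.hJr' (by positivity)
        _ = 6 * κ := by ring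
    set j : ℤ := L.n s k - l * Λ.Ys s with hj
    have hjr : (j : ℝ) = L.n s k - l * Λ.Ys s := by rw [hj]; push_cast; ring
    have b1 : lo s < j := by
      simp only [hlo]
      rw [hjr]
      linarith
    have b2 : (j : ℝ) < lo s + Λ.Nc := by
      have h6 : 6 * κ ≤ 6 * Λ.R / Λ.B := by
        have := mul_le_mul_of_nonneg_left hκR (by norm_num : (0 : ℝ) ≤ 6)
        calc 6 * κ ≤ 6 * (Λ.R / Λ.B) := this
          _ = _ := by ring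
      have := Λ.hNc
      simp only [hlo]
      rw [hjr]
      linarith
    have b3 : ⌊lo s⌋ + 1 ≤ j := by
      have : ⌊lo s⌋ < j := Int.floor_lt.2 b1
      omega
    have b4 : j < ⌊lo s⌋ + 1 + Λ.Nc := by
      have : (j : ℝ) < ((⌊lo s⌋ + 1 + Λ.Nc : ℤ) : ℝ) := by
        push_cast
        have := Int.lt_floor_add_one (lo s)
        linarith
      exact_mod_cast this
    rw [hC, Finset.mem_image]
    refine ⟨(s, (j - (⌊lo s⌋ + 1)).toNat), ?_, ?_⟩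
    · rw [Finset.mem_product, Finset.mem_range, Finset.mem_range]
      refine ⟨hs, ?_⟩
      simp only
      omega
    · simp only [Prod.mk.injEq, true_and]
      omega
  · -- monotonicity
    intro s hs hb k k' hk1 hkk hk' hn hn' l hl l' hl' hcl
    have hρ := hb.2
    obtain ⟨hY1, hY2⟩ := Λ.hYs s hs hρ
    have hlt : L.n s k < L.n s k' := by
      refine Λ.T3 hkk (by omega) ?_ hn hn'
      have h1 : (k' - k : ℕ) ≤ k₂ - k₁ := by omega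
      have h2 : ((k' - k : ℕ) : ℝ) ≤ ((k₂ - k₁ : ℕ) : ℝ) := by exact_mod_cast h1
      linarith
    set κ := L.ρ s / Λ.B with hκ
    have hκ0 : 0 < κ := div_pos hρ Λ.hB0
    have e1 : ∀ l : ℕ, L.ρ s * ((Λ.N₀ + l * Λ.Y + l * Λ.r) / Λ.B)
        = κ * (Λ.N₀ + l * Λ.Y + l * Λ.r) := by
      intro l
      rw [hκ]; ring
    simp only [e1]
    have hY1' := abs_le.1 hY1
    have hsl0 : 0 ≤ κ * Λ.Y - Λ.Ys s + κ * Λ.r := by
      have : 0 ≤ κ * Λ.r / 2 := by have := Λ.hr; positivity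
      linarith
    have hll : (l : ℤ) < l' := by
      by_contra hcon
      push Not at hcon
      have h1 : (l' : ℤ) * Λ.Ys s ≤ l * Λ.Ys s := mul_le_mul_of_nonneg_right hcon (by omega)
      omega
    have hll' : (0 : ℝ) ≤ (l' : ℝ) - l := by
      have : (l : ℝ) < l' := by exact_mod_cast hll
      linarith
    have h3 := mul_nonneg hll' hsl0
    have hcl' : (L.n s k : ℝ) - l * Λ.Ys s = L.n s k' - l' * Λ.Ys s := by exact_mod_cast hcl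
    linarith
  · have := Λ.hΦm
    linarith
  · intro s hs
    exact mul_le_mul_of_nonneg_right (Λ.hR s hs) Λ.hw0
  · exact Λ.evc_le (by omega)
  · have h1 : (C.card : ℝ) * (2 * (Λ.R * Λ.w)) ≤ m * Λ.Nc * (2 * (Λ.R * Λ.w)) :=
      mul_le_mul_of_nonneg_right hcard (by positivity)
    have h2 := Λ.hlossC
    have h3 := Λ.hωE
    linarith

end Lad

end Pool.Agent.Helper66.RotZ
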