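import Pool.Agent.Helper66.Rot.Z3

/-!
The climbing phase of a ladder and the conclusion.
-/

namespace Pool.Agent.Helper66.RotZ

open CircleDeg1Lift Filter Topology Pool.Agent.Helper88.Rot

variable {m : ℕ} {θ : ℝ} {S : Sys m θ}

open Classical in
/-- summation of contributions of a block of rounds -/
theorem block_sum {L : Loc S} {Pb : ℤ} (hPb : L.P * Pb ≡ 1 [ZMOD L.Q]) {k₁ j : ℕ}
    (hj : k₁ + j ≤ L.Q) (G : Finset ℕ) (hG : ∀ s ∈ G, s < m) (ns : ℕ → ℤ)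
    (hns : ∀ s ∈ G, |(ns s : ℝ)| ≤ L.N' ∧ 2 * |(ns s : ℝ)| < L.Q ∧ k₁ ≤ L.kk Pb s (ns s) ∧
      L.kk Pb s (ns s) < k₁ + j) (X : ℕ → ℝ) (x : ℝ) :
    ∑ i ∈ Finset.range j, ∑ s ∈ Finset.range m, (if |(L.n s (k₁ + i) : ℝ)| ≤ L.N' then
      (if s ∈ G ∧ L.n s (k₁ + i) = ns s then X s else 0) + x else 0)
    = ∑ s ∈ G, X s
      + x * ((∑ i ∈ Finset.range j, ∑ s ∈ Finset.range m, L.evc s (k₁ + i) : ℕ) : ℝ) := by
  have h1 : ∀ i s, (if |(L.n s (k₁ + i) : ℝ)| ≤ L.N' then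
      (if s ∈ G ∧ L.n s (k₁ + i) = ns s then X s else 0) + x else 0)
      = (if s ∈ G ∧ L.n s (k₁ + i) = ns s then X s else 0) + x * (L.evc s (k₁ + i) : ℕ) := by
    intro i s
    unfold Loc.evc
    by_cases hev : |(L.n s (k₁ + i) : ℝ)| ≤ L.N'
    · rw [if_pos hev, if_pos hev]
      simp
    · rw [if_neg hev, if_neg hev, if_neg]
      · simp
      · rintro ⟨hs, hn⟩
        rw [hn] at hev
        exact hev (hns s hs).1
  simp only [h1, Finset.sum_add_distrib, ← Finset.mul_sum]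
  push_cast
  congr 1
  rw [Finset.sum_comm]
  have h2 : ∀ s ∈ Finset.range m, ∑ i ∈ Finset.range j,
      (if s ∈ G ∧ L.n s (k₁ + i) = ns s then X s else 0) = if s ∈ G then X s else 0 := by
    intro s hs
    by_cases hsG : s ∈ G
    · obtain ⟨a1, a2, a3, a4⟩ := hns s hsG
      rw [if_pos hsG]
      rw [Finset.sum_eq_single (L.kk Pb s (ns s) - k₁)]
      · rw [if_pos]
        refine ⟨hsG, ?_⟩
        have e : k₁ + (L.kk Pb s (ns s) - k₁) = L.kk Pb s (ns s) := by omega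
        rw [e, L.n_kk hPb s a2]
      · intro i hi hne
        rw [if_neg]
        rintro ⟨-, hn⟩
        apply hne
        rw [← hn, L.kk_n hPb s (by rw [Finset.mem_range] at hi; omega)]
        omega
      · intro hni
        exfalso
        apply hni
        rw [Finset.mem_range]
        omega
    · rw [if_neg hsG]
      apply Finset.sum_eq_zero
      intro i _
      rw [if_neg]
      exact fun h => hsG h.1
  rw [Finset.sum_congr rfl h2, ← Finset.sum_filter]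
  congr 1
  ext s
  rw [Finset.mem_filter, Finset.mem_range]
  exact ⟨fun h => h.2, fun h => ⟨hG s h, h⟩⟩

namespace Lad
variable {L : Loc S} (Λ : Lad L)
include Λ

/-- starting round of the `l`-th block -/
def kb (l : ℕ) : ℕ := Λ.q * (Λ.N₀ + l * Λ.Y + Λ.H')

theorem kb_succ (l : ℕ) : Λ.kb (l + 1) = Λ.kb l + Λ.q * Λ.Y := by
  unfold kb
  ring

theorem kb_le {l : ℕ} (hl : l ≤ Λ.J) : Λ.kb l ≤ Λ.kb Λ.J := by
  unfold kb
  exact Nat.mul_le_mul_left _ (by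
    have := Nat.mul_le_mul_right Λ.Y hl
    omega)

theorem kbJ : 4 * (Λ.kb Λ.J : ℝ) ≤ 3 * L.Q := by
  have hQ := Λ.Qbig
  have h1 : (2 * Λ.q * (Λ.H' + (Λ.g + 17)) : ℝ) ≤ L.Q := by exact_mod_cast Λ.hQ1
  have h2 := mul_le_mul_of_nonneg_left Λ.hN0N Λ.q0.le
  have h3 : (0 : ℝ) ≤ Λ.q * (Λ.g + 40) := by have := Λ.q0; positivity
  have h4 : (0 : ℝ) ≤ 8 * (Λ.g : ℝ) * Λ.q := by positivity
  unfold kb
  push_cast
  have h5 : (0 : ℝ) ≤ Λ.q * (Λ.g + 17) := by have := Λ.q0; positivity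
  linarith

theorem kbJ_le : Λ.kb Λ.J ≤ L.Q := by
  have h1 := Λ.kbJ
  have h2 := L.Qpos
  have : (Λ.kb Λ.J : ℝ) ≤ L.Q := by linarith
  exact_mod_cast this

theorem kb0 : 4 * (Λ.kb 0 : ℝ) ≤ 3 * L.Q := by
  have h1 := Λ.kbJ
  have h2 : (Λ.kb 0 : ℝ) ≤ Λ.kb Λ.J := by exact_mod_cast Λ.kb_le (Nat.zero_le _)
  linarith

theorem QkbJ : 4 * ((L.Q - Λ.kb Λ.J : ℕ) : ℝ) ≤ 3 * L.Q := by
  rw [Nat.cast_sub Λ.kbJ_le]
  have h1 : (L.Q : ℝ) ≤ 2 * Λ.q * (Λ.H' + (Λ.g + 17) + 1) := by exact_mod_cast Λ.hQ2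
  have hQ := Λ.Qbig
  have h3 : (0 : ℝ) ≤ Λ.q * (Λ.N₀ + Λ.J * Λ.Y) := by have := Λ.q0; positivity
  have h4 : (0 : ℝ) ≤ 8 * L.N' * Λ.q := by have := Λ.q0; have := Λ.N'0; positivity
  have h5 : (0 : ℝ) ≤ Λ.q * Λ.g := by positivity
  have h6 := Λ.q0
  unfold kb
  push_cast
  linarith

/-- analysis of an event during the `l`-th block -/
theorem event {l : ℕ} (hl : l < Λ.J) {n₀ : ℤ} (hn₀ : |(n₀ : ℝ)| ≤ 4) {s : ℕ} (hs : s < m)
    {n : ℤ} (hn : |(n : ℝ)| ≤ L.N') (h1 : Λ.kb l ≤ L.kk Λ.q s n)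
    (h2 : L.kk Λ.q s n < Λ.kb (l + 1)) {φ : ℝ}
    (hφ : |φ - (L.v Λ.s₁ - n₀ + l * Λ.r)| ≤ Λ.D)
    (hne : UU (L.ρ s) L.u (n + φ - L.v s) ≠ 0) :
    s ∈ Λ.G ∧ n = Λ.N₀ + l * Λ.Y + n₀ + Λ.c s := by
  have hq := Λ.q0
  -- near
  have hnear : near L Λ.q s Λ.s₁ Λ.g := by
    rcases Λ.hfar s hs with h | h
    · exact h
    · exfalso
      refine Λ.T2 h hn (le_trans ?_ h1) (lt_of_lt_of_le h2 ?_)
      · unfold kb
        exact Nat.mul_le_mul_left _ (by omega)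
      · have := Λ.kb_le (l := l + 1) (by omega)
        unfold kb at this ⊢
        exact this
  obtain ⟨Es, hEs, hT⟩ := Λ.T1 hnear
  have hkk := hT n hn
  have hEs' := abs_le.1 hEs
  have hkr : (L.kk Λ.q s n : ℝ) = Λ.q * (n + Λ.H' + (Λ.g + 17)) - Es := by
    exact_mod_cast hkk
  have h1' : (Λ.q : ℝ) * (Λ.N₀ + l * Λ.Y + Λ.H') ≤ L.kk Λ.q s n := by
    unfold kb at h1
    exact_mod_cast h1
  have h2' : (L.kk Λ.q s n : ℝ) < Λ.q * (Λ.N₀ + (l + 1) * Λ.Y + Λ.H') := by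
    unfold kb at h2
    exact_mod_cast h2
  rw [hkr] at h1' h2'
  have b1 : (Λ.N₀ : ℝ) + l * Λ.Y - (Λ.g + 17) - Λ.g ≤ n := by
    have : (Λ.q : ℝ) * (Λ.N₀ + l * Λ.Y - (Λ.g + 17) - Λ.g) ≤ Λ.q * n := by linarith
    exact le_of_mul_le_mul_left this hq
  have b2 : (n : ℝ) < Λ.N₀ + (l + 1) * Λ.Y - (Λ.g + 17) + Λ.g := by
    have : (Λ.q : ℝ) * n < Λ.q * (Λ.N₀ + (l + 1) * Λ.Y - (Λ.g + 17) + Λ.g) := by linarith
    exact lt_of_mul_lt_mul_left this hq.le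
  -- position
  have hρ : 0 < L.ρ s := by
    rcases (L.hρ s hs).eq_or_lt with h | h
    · exfalso
      apply hne
      unfold UU
      rw [← h, zero_mul]
    · exact h
  have hu : L.u ((n + φ - L.v s) / L.ρ s) ≠ 0 := by
    intro h0
    apply hne
    unfold UU
    rw [h0, mul_zero]
  obtain ⟨l', hl', hlw⟩ := Λ.hu0 _ hu
  have hB0 := Λ.hB0
  set κ := L.ρ s / Λ.B with hκ
  have hκ0 : 0 < κ := div_pos hρ hB0
  have hz : |(n : ℝ) + φ - L.v s - κ * (Λ.N₀ + l' * Λ.Y + l' * Λ.r)| < L.ρ s * Λ.w := by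
    have e : (n : ℝ) + φ - L.v s - κ * (Λ.N₀ + l' * Λ.Y + l' * Λ.r)
        = L.ρ s * ((n + φ - L.v s) / L.ρ s - (Λ.N₀ + l' * Λ.Y + l' * Λ.r) / Λ.B) := by
      rw [hκ]; field_simp
    rw [e, abs_mul, abs_of_pos hρ]
    exact mul_lt_mul_of_pos_left hlw hρ
  have hw1 : L.ρ s * Λ.w ≤ 1 :=
    (mul_le_mul_of_nonneg_right (Λ.hR s hs) Λ.hw0).trans Λ.hRw
  have hz' := abs_lt.1 hz
  have hlJ : (l : ℝ) ≤ Λ.J := by exact_mod_cast hl.le
  have hl1J : (l : ℝ) + 1 ≤ Λ.J := by exact_mod_cast hl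
  have hlJ' : (l' : ℝ) ≤ Λ.J := by exact_mod_cast hl'.le
  have hr := Λ.hr
  have hlr : (l : ℝ) * Λ.r ≤ 4 := (mul_le_mul_of_nonneg_right hlJ hr.le).trans Λ.hJr'
  have hlr' : (l' : ℝ) * Λ.r ≤ 4 := (mul_le_mul_of_nonneg_right hlJ' hr.le).trans Λ.hJr'
  have hlr0 : 0 ≤ (l : ℝ) * Λ.r := by positivity
  have hlr0' : 0 ≤ (l' : ℝ) * Λ.r := by positivity
  have hD1 : Λ.D ≤ 1 := by
    have h1 := Λ.hdd
    have h2 := Λ.hd1
    have h3 := Λ.ho
    have h4 : 0 ≤ Λ.B * Λ.w := mul_nonneg hB0.le Λ.hw0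
    linarith
  have hφ' := abs_le.1 hφ
  have hn₀' := abs_le.1 hn₀
  have hv0 := L.v_nonneg s
  have hv1 := L.v_lt s
  have hv0' := L.v_nonneg Λ.s₁
  have hv1' := L.v_lt Λ.s₁
  have hY0 : (0 : ℝ) ≤ Λ.Y := by positivity
  have hg0 : (0 : ℝ) ≤ Λ.g := by positivity
  by_cases hρB : L.ρ s = Λ.B
  · -- same density
    have hκ1 : κ = 1 := by rw [hκ, hρB]; field_simp
    rw [hκ1, one_mul] at hz'
    have hYg : (Λ.g : ℝ) + (Λ.g + 17) + 17 ≤ Λ.Y := by exact_mod_cast Λ.hY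
    have hll : l' = l := by
      rcases Nat.lt_trichotomy l' l with h | h | h
      · exfalso
        have h3 : (l' : ℝ) + 1 ≤ l := by exact_mod_cast h
        have h4 : ((l' : ℝ) + 1) * Λ.Y ≤ l * Λ.Y := mul_le_mul_of_nonneg_right h3 hY0
        linarith [hz'.2]
      · exact h
      · exfalso
        have h3 : (l : ℝ) + 1 ≤ l' := by exact_mod_cast h
        have h4 : ((l : ℝ) + 1) * Λ.Y ≤ l' * Λ.Y := mul_le_mul_of_nonneg_right h3 hY0
        linarith [hz'.1]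
    rw [hll] at hz'
    set i : ℤ := n - Λ.N₀ - l * Λ.Y with hi
    have hir : (i : ℝ) = n - Λ.N₀ - l * Λ.Y := by rw [hi]; push_cast; ring
    have hBw : L.ρ s * Λ.w = Λ.B * Λ.w := by rw [hρB]
    rw [hBw] at hz'
    have hi1 : |L.v s - L.v Λ.s₁ - ((i - n₀ : ℤ) : ℝ)| < Λ.B * Λ.w + Λ.D := by
      push_cast
      rw [hir, abs_lt]
      constructor <;> linarith [hz'.1, hz'.2]
    have hsG : s ∈ Λ.G := by
      by_contra hsG
      have h3 := Λ.hnG s hs hρB hnear hsG (i - n₀)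
      have h4 := Λ.hdd
      have h5 := Λ.ho
      linarith
    refine ⟨hsG, ?_⟩
    obtain ⟨-, -, hc, -, -⟩ := Λ.hG s hsG
    have hc' := abs_le.1 hc
    have hi1' := abs_lt.1 hi1
    have h6 : |((i - n₀ - Λ.c s : ℤ) : ℝ)| < 1 := by
      push_cast at hi1' ⊢
      have h4 := Λ.hdd
      have h5 := Λ.hd1
      rw [abs_lt]
      constructor <;> linarith [hi1'.1, hi1'.2]
    have h7 : i - n₀ - Λ.c s = 0 := by
      have : |i - n₀ - Λ.c s| < 1 := by exact_mod_cast h6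
      exact Int.abs_lt_one_iff.1 this
    omega
  · exfalso
    have h3 := Λ.hN₀ s hs hρ hρB
    have hlY : (l : ℝ) * Λ.Y ≤ Λ.J * Λ.Y := mul_le_mul_of_nonneg_right hlJ hY0
    have hl1Y : ((l : ℝ) + 1) * Λ.Y ≤ Λ.J * Λ.Y := mul_le_mul_of_nonneg_right hl1J hY0
    have hlY' : (l' : ℝ) * Λ.Y ≤ Λ.J * Λ.Y := mul_le_mul_of_nonneg_right hlJ' hY0
    have hlY0 : 0 ≤ (l : ℝ) * Λ.Y := by positivity
    have hlY0' : 0 ≤ (l' : ℝ) * Λ.Y := by positivity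
    have h4 : κ * (l' * Λ.Y + l' * Λ.r) ≤ κ * (Λ.J * Λ.Y + 4) :=
      mul_le_mul_of_nonneg_left (by linarith) hκ0.le
    have h5 : 0 ≤ κ * (l' * Λ.Y + l' * Λ.r) := by positivity
    have h6 : |(κ - 1) * Λ.N₀| ≤ 12 + Λ.J * Λ.Y + Λ.g + (Λ.g + 17) + κ * (Λ.J * Λ.Y + 4) := by
      rw [abs_le]
      constructor <;> linarith [hz'.1, hz'.2]
    rw [abs_mul, abs_of_nonneg (by positivity : (0 : ℝ) ≤ Λ.N₀)] at h6
    linarith

open Classical in
/-- one block of the climb -/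
theorem block {l : ℕ} (hl : l < Λ.J) {n₀ : ℤ} (hn₀ : |(n₀ : ℝ)| ≤ 4) {z : ℝ}
    (h : L.LL z (Λ.kb l) (L.v Λ.s₁ - n₀ + l * Λ.r)) :
    L.LL z (Λ.kb (l + 1)) (L.v Λ.s₁ - n₀ + ((l + 1 : ℕ) : ℝ) * Λ.r) := by
  set ψ : ℝ := L.v Λ.s₁ - n₀ + l * Λ.r with hψ
  have hq := Λ.q0
  have hB0 := Λ.hB0
  have hA0 : 0 ≤ L.A := (abs_nonneg _).trans (L.hA 0)
  have hBA0 : 0 ≤ Λ.B * L.A := mul_nonneg hB0.le hA0
  have hm1 : 1 ≤ (m : ℝ) := by
    have : 0 < m := lt_of_le_of_lt (Nat.zero_le _) Λ.hs₁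
    exact_mod_cast this
  have hεnn := L.hu.εnn
  have hD0 : 0 ≤ Λ.D := by rw [Λ.hD]; positivity
  have hD1 : Λ.D ≤ 1 := by
    have h1 := Λ.hdd
    have h2 := Λ.hd1
    have h3 := Λ.ho
    have h4 : 0 ≤ Λ.B * Λ.w := mul_nonneg hB0.le Λ.hw0
    linarith
  have hJlQ : Λ.kb l + Λ.q * Λ.Y ≤ L.Q := by
    rw [← Λ.kb_succ]
    exact (Λ.kb_le (by omega)).trans Λ.kbJ_le
  set ns : ℕ → ℤ := fun s => Λ.N₀ + l * Λ.Y + n₀ + Λ.c s with hns
  set η : ℝ := L.ε * (Λ.D + Λ.o) + 2 * L.ε * (Λ.B * L.A) with hη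
  have hη0 : 0 ≤ η := by
    have := Λ.ho
    positivity
  set X : ℕ → ℝ := fun s => S.σ s * (Λ.τ * (Λ.B * L.A)) - η with hX
  have hn₀' := abs_le.1 hn₀
  have hlJ : (l : ℝ) + 1 ≤ Λ.J := by exact_mod_cast hl
  have hlY0 : 0 ≤ (l : ℝ) * Λ.Y := by positivity
  have hlY : ((l : ℝ) + 1) * Λ.Y ≤ Λ.J * Λ.Y := mul_le_mul_of_nonneg_right hlJ (by positivity)
  have hN₀0 : (0 : ℝ) ≤ Λ.N₀ := by positivity
  have hg0 : (0 : ℝ) ≤ Λ.g := by positivity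
  have hY0 : (0 : ℝ) ≤ Λ.Y := by positivity
  -- the tooth events
  have hev : ∀ s ∈ Λ.G, |(ns s : ℝ)| ≤ L.N' ∧ 2 * |(ns s : ℝ)| < L.Q ∧
      Λ.kb l ≤ L.kk Λ.q s (ns s) ∧ L.kk Λ.q s (ns s) < Λ.kb l + Λ.q * Λ.Y := by
    intro s hs
    obtain ⟨hsm, hρB, hc, hc1, hnear⟩ := Λ.hG s hs
    have hc1' := abs_le.1 hc1
    have hnsr : (ns s : ℝ) = Λ.N₀ + l * Λ.Y + n₀ + Λ.c s := by
      simp only [hns]; push_cast; ring
    have hN0N := Λ.hN0N
    have a1 : |(ns s : ℝ)| ≤ L.N' := by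
      rw [hnsr, abs_le]
      constructor <;> linarith
    refine ⟨a1, lt_of_le_of_lt (mul_le_mul_of_nonneg_left a1 two_pos.le) Λ.NQ, ?_⟩
    obtain ⟨Es, hEs, hT⟩ := Λ.T1 hnear
    have hEs' := abs_le.1 hEs
    have hkk := hT (ns s) a1
    have hkr : (L.kk Λ.q s (ns s) : ℝ) = Λ.q * (ns s + Λ.H' + (Λ.g + 17)) - Es := by
      exact_mod_cast hkk
    rw [hnsr] at hkr
    have hYg : (Λ.g : ℝ) + (Λ.g + 17) + 17 ≤ Λ.Y := by exact_mod_cast Λ.hY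
    constructor
    · have : ((Λ.kb l : ℕ) : ℝ) ≤ L.kk Λ.q s (ns s) := by
        rw [hkr]
        unfold kb
        push_cast
        have h3 : 0 ≤ (Λ.q : ℝ) * (n₀ + Λ.c s + 17) := by
          apply mul_nonneg hq.le
          linarith
        linarith
      exact_mod_cast this
    · have : (L.kk Λ.q s (ns s) : ℝ) < ((Λ.kb l + Λ.q * Λ.Y : ℕ) : ℝ) := by
        rw [hkr]
        unfold kb
        push_cast
        have h3 : (Λ.q : ℝ) * (n₀ + Λ.c s + (Λ.g + 17) + Λ.g) < Λ.q * Λ.Y := by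
          apply mul_lt_mul_of_pos_left _ hq
          linarith
        linarith
      exact_mod_cast this
  -- contributions and their bounds
  set c : ℕ → ℕ → ℝ := fun s k => if |(L.n s k : ℝ)| ≤ L.N' then
      (if s ∈ Λ.G ∧ L.n s k = ns s then X s else 0) + -(5 * L.ω) else 0 with hc
  set e : ℕ → ℕ → ℝ := fun s k => if |(L.n s k : ℝ)| ≤ L.N' then
      (if s ∈ Λ.G ∧ L.n s k = ns s then Λ.B * L.A + η else 0) + 5 * L.ω else 0 with he
  have hω0 := L.hω0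
  have hXle : ∀ s, |X s| ≤ Λ.B * L.A + η := by
    intro s
    simp only [hX]
    have h1 := abs_sub ((S.σ s : ℝ) * (Λ.τ * (Λ.B * L.A))) η
    have h2 := Loc.σ_mul_le S s (Λ.τ * (Λ.B * L.A))
    have h3 : |Λ.τ * (Λ.B * L.A)| = Λ.B * L.A := by
      rw [abs_mul, abs_of_nonneg hBA0]
      rcases Λ.hτ with h | h <;> rw [h] <;> simp
    rw [h3] at h2
    rw [abs_of_nonneg hη0] at h1
    linarith
  have hce : ∀ s < m, ∀ k, |c s k| ≤ e s k := by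
    intro s _ k
    simp only [hc, he]
    split_ifs with h1 h2
    · have h3 := abs_add_le (X s) (-(5 * L.ω))
      rw [abs_neg, abs_of_nonneg (by positivity : 0 ≤ 5 * L.ω)] at h3
      have := hXle s
      linarith
    · rw [zero_add, zero_add, abs_neg, abs_of_nonneg (by positivity : 0 ≤ 5 * L.ω)]
    · simp
  have hsumc := block_sum (L := L) Λ.hPb hJlQ Λ.G (fun s hs => (Λ.hG s hs).1) ns hev X (-(5 * L.ω))
  have hsume := block_sum (L := L) Λ.hPb hJlQ Λ.G (fun s hs => (Λ.hG s hs).1) ns hev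
    (fun _ => Λ.B * L.A + η) (5 * L.ω)
  have hE := Λ.evc_le hJlQ
  have hE' := mul_le_mul_of_nonneg_left hE (by positivity : 0 ≤ 5 * L.ω)
  have hGcard : (Λ.G.card : ℝ) ≤ m := by
    have h1 : Λ.G ⊆ Finset.range m := fun s hs => Finset.mem_range.2 (Λ.hG s hs).1
    have h2 := Finset.card_le_card h1
    rw [Finset.card_range] at h2
    exact_mod_cast h2
  have hmη : (m : ℝ) * η ≤ Λ.B * L.A / 8 := Λ.hεD
  have hδY := Λ.hδY
  have hωE' := Λ.hωE'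
  have hdev : (∑ i ∈ Finset.range (Λ.q * Λ.Y), ∑ s ∈ Finset.range m, e s (Λ.kb l + i))
      + L.δ * ((Λ.q * Λ.Y : ℕ) : ℝ) ≤ Λ.D := by
    simp only [he]
    rw [hsume, Finset.sum_const, nsmul_eq_mul]
    have h1 : (Λ.G.card : ℝ) * (Λ.B * L.A + η) ≤ m * (Λ.B * L.A + η) :=
      mul_le_mul_of_nonneg_right hGcard (by positivity)
    have h2 : Λ.B * L.A ≤ m * (Λ.B * L.A) := le_mul_of_one_le_left hBA0 hm1
    rw [Λ.hD]
    push_cast
    push_cast at hE'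
    linarith
  have hstep : ∀ k, Λ.kb l ≤ k → k < Λ.kb l + Λ.q * Λ.Y → ∀ s < m, ∀ φ, |φ - ψ| ≤ Λ.D →
      L.LI z k s φ → L.LI z k (s + 1) (φ + c s k) := by
    intro k hk1 hk2 s hs φ hφ hLI
    have hφ' := abs_le.1 hφ
    have hlr : (l : ℝ) * Λ.r ≤ 4 := by
      have h1 : (l : ℝ) * Λ.r ≤ Λ.J * Λ.r :=
        mul_le_mul_of_nonneg_right (by linarith) Λ.hr.le
      exact h1.trans Λ.hJr'
    have hlr0 : 0 ≤ (l : ℝ) * Λ.r := by have := Λ.hr; positivity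
    have hΦ : |φ| ≤ L.Φm := by
      have h1 := Λ.hΦm
      have h2 := L.v_nonneg Λ.s₁
      have h3 := L.v_lt Λ.s₁
      rw [abs_le]
      constructor <;> linarith
    refine (LI_step2 L hs hΦ hLI).mono ?_
    have key : c s k ≤ con2 L φ s k := by
      simp only [hc]
      unfold con2
      by_cases hevk : |(L.n s k : ℝ)| ≤ L.N'
      · rw [if_pos hevk, if_pos hevk]
        have hkQ : k < L.Q := lt_of_lt_of_le hk2 hJlQ
        have hkk := L.kk_n Λ.hPb s hkQ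
        set U := UU (L.ρ s) L.u (L.n s k + φ - L.v s) with hU
        by_cases hG : s ∈ Λ.G ∧ L.n s k = ns s
        · rw [if_pos hG]
          obtain ⟨hsG, hnk⟩ := hG
          obtain ⟨hsm, hρB, hcs, hc1, hnear⟩ := Λ.hG s hsG
          have hcs' := abs_le.1 hcs
          have hnsr : (L.n s k : ℝ) = Λ.N₀ + l * Λ.Y + n₀ + Λ.c s := by
            rw [hnk]; simp only [hns]; push_cast; ring
          have hUc : UU (L.ρ s) L.u (Λ.N₀ + l * Λ.Y + l * Λ.r) = Λ.τ * (Λ.B * L.A) := by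
            unfold UU
            rw [hρB, Λ.huc l hl]
            ring
          have hUd : |U - Λ.τ * (Λ.B * L.A)| ≤ L.ε * (Λ.D + Λ.o) := by
            rw [← hUc, hU]
            refine (UU_lip L.hu (L.hρ s hs) _ _).trans (mul_le_mul_of_nonneg_left ?_ hεnn)
            rw [hnsr]
            have e1 : (Λ.N₀ : ℝ) + l * Λ.Y + n₀ + Λ.c s + φ - L.v s
                - (Λ.N₀ + l * Λ.Y + l * Λ.r)
                = (φ - ψ) - (L.v s - L.v Λ.s₁ - Λ.c s) := by rw [hψ]; ring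
            rw [e1]
            have h1 := abs_sub (φ - ψ) (L.v s - L.v Λ.s₁ - Λ.c s)
            linarith
          have hUA : |U| ≤ Λ.B * L.A := by
            have := UU_bound L.hA (L.hρ s hs) (L.n s k + φ - L.v s)
            rw [hρB] at this
            rw [hU, hρB]
            exact this
          have h1 : |(S.σ s : ℝ) * U| ≤ Λ.B * L.A := (Loc.σ_mul_le S s U).trans hUA
          have h2 : |(S.σ s : ℝ) * (U - Λ.τ * (Λ.B * L.A))| ≤ L.ε * (Λ.D + Λ.o) :=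
            (Loc.σ_mul_le S s _).trans hUd
          have h3 := (abs_le.1 h2).1
          have h4 : 2 * L.ε * |(S.σ s : ℝ) * U| ≤ 2 * L.ε * (Λ.B * L.A) :=
            mul_le_mul_of_nonneg_left h1 (by positivity)
          simp only [hX, hη]
          linarith
        · rw [if_neg hG]
          have hU0 : U = 0 := by
            by_contra hne
            apply hG
            refine Λ.event hl hn₀ hs hevk ?_ ?_ hφ hne
            · rw [hkk]; exact hk1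
            · rw [hkk, Λ.kb_succ]; exact hk2
          rw [hU0]
          simp
      · rw [if_neg hevk, if_neg hevk]
    linarith
  have hmain := group2 L (z := z) (k₁ := Λ.kb l) (Λ.q * Λ.Y) (ψ := ψ) (D := Λ.D) c e hce Λ.hδ.le
    hdev hstep h
  rw [Λ.kb_succ]
  refine hmain.mono ?_
  simp only [hc]
  rw [hsumc]
  have hsumX : Λ.B * L.A - m * η ≤ ∑ s ∈ Λ.G, X s := by
    simp only [hX]
    rw [Finset.sum_sub_distrib, Finset.sum_const, nsmul_eq_mul, ← Finset.sum_mul]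
    have h1 : (Λ.G.card : ℝ) * η ≤ m * η := mul_le_mul_of_nonneg_right hGcard hη0
    have h2 := Λ.hnet
    have h3 : 1 * (Λ.B * L.A) ≤ (Λ.τ * ∑ s ∈ Λ.G, (S.σ s : ℝ)) * (Λ.B * L.A) :=
      mul_le_mul_of_nonneg_right h2 hBA0
    linarith
  rw [hψ]
  have hr := Λ.hrBA
  push_cast
  push_cast at hE'
  linarith

/-- a ladder forces a larger translation number -/
theorem final : θ < translationNumber L.w := by
  obtain ⟨z, hz0, hz⟩ := L.exists_start 0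
  have hQ := L.Qpos
  have hδ := Λ.hδ
  have hδQ := Λ.hδQ
  -- first foreign phase
  have f1 := Λ.foreign_phase (k₁ := 0) (k₂ := Λ.kb 0) (Nat.zero_le _)
    ((Λ.kb_le (Nat.zero_le _)).trans Λ.kbJ_le) (by
      rw [Nat.sub_zero]
      exact Λ.kb0) (φ₁ := 0) (z := z) (by simp) hz
  rw [Nat.sub_zero] at f1
  set φ₁ : ℝ := 0 - (1 / 4 + L.δ * (Λ.kb 0 : ℝ)) with hφ₁
  have hkb0 : L.δ * (Λ.kb 0 : ℝ) ≤ 3 / 4 := by
    have h1 := mul_le_mul_of_nonneg_left Λ.kb0 hδ.le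
    linarith
  have hkb0' : 0 ≤ L.δ * (Λ.kb 0 : ℝ) := by positivity
  -- capture
  set n₀ : ℤ := ⌈L.v Λ.s₁ - φ₁⌉ with hn₀
  have c1 := Int.le_ceil (L.v Λ.s₁ - φ₁)
  have c2 := Int.ceil_lt_add_one (L.v Λ.s₁ - φ₁)
  rw [← hn₀] at c1 c2
  have hv0 := L.v_nonneg Λ.s₁
  have hv1 := L.v_lt Λ.s₁
  have hn₀4 : |(n₀ : ℝ)| ≤ 4 := by
    rw [abs_le]
    constructor <;> linarith
  have f2 : L.LL z (Λ.kb 0) (L.v Λ.s₁ - n₀ + ((0 : ℕ) : ℝ) * Λ.r) := by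
    refine f1.mono ?_
    push_cast
    linarith
  have f3 : ∀ l ≤ Λ.J, L.LL z (Λ.kb l) (L.v Λ.s₁ - n₀ + (l : ℝ) * Λ.r) := by
    intro l
    induction l with
    | zero => intro _; exact f2
    | succ l ih => intro hl; exact Λ.block (by omega) hn₀4 (ih (by omega))
  have f4 := f3 Λ.J le_rfl
  have hJr := Λ.hJr
  have hJr' := Λ.hJr'
  have hn₀4' := abs_le.1 hn₀4
  have f5 := Λ.foreign_phase (k₁ := Λ.kb Λ.J) (k₂ := L.Q) Λ.kbJ_le le_rfl Λ.QkbJ (z := z) (by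
    rw [abs_le]
    constructor <;> linarith) f4
  have hcast : ((L.Q - Λ.kb Λ.J : ℕ) : ℝ) = L.Q - Λ.kb Λ.J := by
    rw [Nat.cast_sub Λ.kbJ_le]
  rw [hcast] at f5
  have hkb : (Λ.kb 0 : ℝ) ≤ Λ.kb Λ.J := by exact_mod_cast Λ.kb_le (Nat.zero_le _)
  have hkb' := mul_le_mul_of_nonneg_left hkb hδ.le
  refine L.closing (φ := 0) hz0.le ?_ f5 hδ
  linarith

end Lad

end Pool.Agent.Helper66.RotZ
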