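import Pool.Agent.Helper66.Rot.Z4

/-!
Auxiliary results for the choice of parameters: companion fractions, simultaneous approximation,
and the comb of tents.
-/

namespace Pool.Agent.Helper66.RotZ

open CircleDeg1Lift Filter Topology Pool.Agent.Helper88.Rot

/-- well approximable from below by coprime fractions -/
def WAB (θ : ℝ) : Prop := ∀ η : ℝ, 0 < η → ∃ (q : ℕ) (p : ℤ), 0 < q ∧ IsCoprime p (q : ℤ) ∧
  0 < q * θ - p ∧ q * (q * θ - p) < η

theorem companion {θ η : ℝ} (hη0 : 0 < η) (hη : η ≤ 1 / 2) {q : ℕ} {p : ℤ} (hq : 0 < q)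
    (hcop : IsCoprime p (q : ℤ)) (hpos : 0 < q * θ - p) (hlt : q * (q * θ - p) < η) :
    ∃ (Q : ℕ) (P : ℤ), P * q - p * Q = 1 ∧ 0 < Q ∧ 0 < P - Q * θ ∧ Q * (P - Q * θ) < 1 ∧
      (q : ℝ) ≤ 2 * η * Q := by
  obtain ⟨a, b, hab⟩ := hcop
  set e : ℝ := q * θ - p with he
  have hq' : (0 : ℝ) < q := by exact_mod_cast hq
  set i : ℤ := ⌈(1 / e + a) / q⌉ - 1 with hi
  have h1 : (i : ℝ) < (1 / e + a) / q := by
    have := Int.ceil_lt_add_one ((1 / e + a) / q)
    rw [hi]; push_cast; linarith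
  have h2 : (1 / e + a) / q ≤ i + 1 := by
    have := Int.le_ceil ((1 / e + a) / q)
    rw [hi]; push_cast; linarith
  rw [lt_div_iff₀ hq'] at h1
  rw [div_le_iff₀ hq'] at h2
  set Qz : ℤ := i * q - a with hQz
  have hQr : (Qz : ℝ) = i * q - a := by rw [hQz]; push_cast; ring
  have h3 : (Qz : ℝ) < 1 / e := by rw [hQr]; linarith
  have h4 : 1 / e - q ≤ Qz := by rw [hQr]; linarith
  have h5 : q / η < 1 / e := by
    rw [div_lt_div_iff₀ hη0 hpos]
    linarith
  have h6 : (q : ℝ) ≤ 2 * η * Qz := by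
    have h7 : q / η - q < (Qz : ℝ) := by linarith
    have h8 : 2 * η * (q / η - q) ≤ 2 * η * Qz :=
      mul_le_mul_of_nonneg_left h7.le (by positivity)
    have h9 : 2 * η * (q / η - q) = 2 * q - 2 * η * q := by field_simp
    have h10 : 2 * η * q ≤ 1 * q := mul_le_mul_of_nonneg_right (by linarith) hq'.le
    linarith
  have hQ0r : (0 : ℝ) < Qz := by
    by_contra hcon
    push Not at hcon
    have : 2 * η * (Qz : ℝ) ≤ 0 := mul_nonpos_of_nonneg_of_nonpos (by positivity) hcon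
    linarith
  have hQ0 : 0 < Qz := by exact_mod_cast hQ0r
  obtain ⟨Q, hQ⟩ : ∃ Q : ℕ, (Q : ℤ) = Qz := ⟨Qz.toNat, Int.toNat_of_nonneg hQ0.le⟩
  have hQR : (Q : ℝ) = Qz := by exact_mod_cast hQ
  refine ⟨Q, b + i * p, ?_, by exact_mod_cast hQ ▸ hQ0, ?_, ?_, ?_⟩
  · rw [hQ, hQz]
    linarith
  all_goals
    have key : (q : ℝ) * (((b + i * p : ℤ) : ℝ) - Q * θ) = 1 - Q * e := by
      have h : (((b + i * p) * q - p * Qz : ℤ) : ℝ) = 1 := by
        have : (b + i * p) * q - p * Qz = 1 := by rw [hQz]; linarith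
        rw [this]; norm_num
      push_cast at h
      rw [he, hQR]
      push_cast
      linarith
  · have : (0 : ℝ) < q * (((b + i * p : ℤ) : ℝ) - Q * θ) := by
      rw [key, hQR]
      have := mul_lt_mul_of_pos_right h3 hpos
      rw [one_div, inv_mul_cancel₀ hpos.ne'] at this
      linarith
    exact pos_of_mul_pos_right this hq'.le
  · have h11 : (q : ℝ) * (((b + i * p : ℤ) : ℝ) - Q * θ) ≤ q * e := by
      rw [key, hQR]
      have := mul_le_mul_of_nonneg_right h4 hpos.le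
      rw [sub_mul, one_div, inv_mul_cancel₀ hpos.ne'] at this
      linarith
    have h12 : (((b + i * p : ℤ) : ℝ) - Q * θ) ≤ e := le_of_mul_le_mul_left h11 hq'
    calc (Q : ℝ) * (((b + i * p : ℤ) : ℝ) - Q * θ) ≤ Q * e :=
          mul_le_mul_of_nonneg_left h12 (by positivity)
      _ < 1 := by
        rw [hQR]
        have := mul_lt_mul_of_pos_right h3 hpos
        rwa [one_div, inv_mul_cancel₀ hpos.ne'] at this
  · rw [hQR]; exact h6

/-- simultaneous approximation with large denominators -/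
theorem simul (m : ℕ) (x : ℕ → ℝ) {η : ℝ} (hη : 0 < η) (Y₀ : ℕ) :
    ∃ Y : ℕ, Y₀ ≤ Y ∧ ∀ s < m, |x s * Y - round (x s * Y)| ≤ η := by
  obtain ⟨N, hN⟩ := exists_nat_gt (1 / η)
  have hN0 : (0 : ℝ) < N := lt_trans (by positivity) hN
  have hN0' : 0 < N := by exact_mod_cast hN0
  set Z : ℕ := Y₀ + 1
  have hfl : ∀ (n : ℕ) (s : Fin m), ⌊(N : ℝ) * Int.fract (x s * (n * Z : ℕ))⌋.toNat < N := by
    intro n s
    have h1 := Int.fract_lt_one (x s * (n * Z : ℕ))
    have h0 := Int.fract_nonneg (x s * (n * Z : ℕ))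
    have h2 : (N : ℝ) * Int.fract (x s * (n * Z : ℕ)) < N := by
      calc (N : ℝ) * Int.fract (x s * (n * Z : ℕ)) < N * 1 := mul_lt_mul_of_pos_left h1 hN0
        _ = N := mul_one _
    have h3 : ⌊(N : ℝ) * Int.fract (x s * (n * Z : ℕ))⌋ < N := by
      rw [Int.floor_lt]
      exact_mod_cast h2
    have h4 : 0 ≤ ⌊(N : ℝ) * Int.fract (x s * (n * Z : ℕ))⌋ := Int.floor_nonneg.2 (by positivity)
    omega
  obtain ⟨n, n', hne, heq⟩ := Finite.exists_ne_map_eq_of_infinite
    (fun n : ℕ => fun s : Fin m => (⟨_, hfl n s⟩ : Fin N))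
  have main : ∀ n n' : ℕ, n < n' → (fun s : Fin m => (⟨_, hfl n s⟩ : Fin N))
      = (fun s : Fin m => (⟨_, hfl n' s⟩ : Fin N)) →
      ∃ Y : ℕ, Y₀ ≤ Y ∧ ∀ s < m, |x s * Y - round (x s * Y)| ≤ η := by
    intro n n' hlt heq
    refine ⟨(n' - n) * Z, ?_, fun s hs => ?_⟩
    · have : 1 ≤ n' - n := by omega
      calc Y₀ ≤ 1 * Z := by omega
        _ ≤ (n' - n) * Z := Nat.mul_le_mul_right _ this
    · have h1 := congrFun heq ⟨s, hs⟩
      simp only [Fin.mk.injEq] at h1
      have g0 := Int.fract_nonneg (x s * (n * Z : ℕ))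
      have g0' := Int.fract_nonneg (x s * (n' * Z : ℕ))
      have h2 : ⌊(N : ℝ) * Int.fract (x s * (n * Z : ℕ))⌋
          = ⌊(N : ℝ) * Int.fract (x s * (n' * Z : ℕ))⌋ := by
        have h4 : 0 ≤ ⌊(N : ℝ) * Int.fract (x s * (n * Z : ℕ))⌋ := Int.floor_nonneg.2 (by positivity)
        have h5 : 0 ≤ ⌊(N : ℝ) * Int.fract (x s * (n' * Z : ℕ))⌋ :=
          Int.floor_nonneg.2 (by positivity)
        omega
      have h3 := Int.abs_sub_lt_one_of_floor_eq_floor h2
      rw [← mul_sub, abs_mul, abs_of_pos hN0] at h3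
      have h6 : |Int.fract (x s * (n * Z : ℕ)) - Int.fract (x s * (n' * Z : ℕ))| < η := by
        have h7 : 1 < N * η := by
          rw [div_lt_iff₀ hη] at hN
          linarith
        have h8 : (N : ℝ) * |Int.fract (x s * (n * Z : ℕ)) - Int.fract (x s * (n' * Z : ℕ))|
            < N * η := h3.trans h7
        exact lt_of_mul_lt_mul_left h8 hN0.le
      refine (round_le (x s * ((n' - n) * Z : ℕ)) (⌊x s * (n' * Z : ℕ)⌋ - ⌊x s * (n * Z : ℕ)⌋)).trans ?_
      refine le_trans (le_of_eq ?_) h6.le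
      rw [abs_sub_comm]
      congr 1
      unfold Int.fract
      push_cast [Nat.cast_sub hlt.le]
      ring
  rcases Nat.lt_or_gt_of_ne hne with h | h
  · exact main n n' h heq
  · exact main n' n h heq.symm

/-- a comb of tents -/
noncomputable def comb (T : Set ℝ) (A ε τ y : ℝ) : ℝ := τ * max 0 (A - ε * Metric.infDist y T)

theorem comb_ne {T : Set ℝ} (hT : T.Nonempty) {A ε τ w y : ℝ} (hε : 0 < ε) (hA : A = ε * w)
    (h : comb T A ε τ y ≠ 0) : ∃ t ∈ T, |y - t| < w := by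
  have h1 : Metric.infDist y T < w := by
    by_contra hcon
    push Not at hcon
    apply h
    unfold comb
    rw [max_eq_left, mul_zero]
    rw [hA]
    have := mul_le_mul_of_nonneg_left hcon hε.le
    linarith
  obtain ⟨t, ht, hd⟩ := (Metric.infDist_lt_iff hT).1 h1
  exact ⟨t, ht, by rwa [Real.dist_eq] at hd⟩

theorem comb_zero {T : Set ℝ} (hT : T.Nonempty) {A ε τ w y : ℝ} (hε : 0 < ε) (hA : A = ε * w)
    (h : ∀ t ∈ T, w ≤ |y - t|) : comb T A ε τ y = 0 := by
  by_contra hne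
  obtain ⟨t, ht, hd⟩ := comb_ne hT hε hA hne
  exact absurd (h t ht) (not_le.2 hd)

theorem comb_mem {T : Set ℝ} {A ε τ y : ℝ} (hA : 0 ≤ A) (h : y ∈ T) :
    comb T A ε τ y = τ * A := by
  unfold comb
  rw [Metric.infDist_zero_of_mem h, mul_zero, sub_zero, max_eq_right hA]

theorem comb_sign {T : Set ℝ} {A ε τ y : ℝ} (hτ : τ = 1 ∨ τ = -1) :
    0 ≤ τ * comb T A ε τ y := by
  unfold comb
  rw [← mul_assoc]
  have h1 : τ * τ = 1 := by rcases hτ with h | h <;> rw [h] <;> ring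
  rw [h1, one_mul]
  exact le_max_left _ _

theorem comb_abs {T : Set ℝ} {A ε τ y : ℝ} (hA : 0 ≤ A) (hε : 0 ≤ ε) (hτ : τ = 1 ∨ τ = -1) :
    |comb T A ε τ y| ≤ A := by
  unfold comb
  rw [abs_mul]
  have h1 : |τ| = 1 := by rcases hτ with h | h <;> rw [h] <;> simp
  rw [h1, one_mul, abs_of_nonneg (le_max_left _ _)]
  apply max_le hA
  have := mul_nonneg hε (Metric.infDist_nonneg (x := y) (s := T))
  linarith

theorem comb_lip {T : Set ℝ} {A ε τ : ℝ} (hε : 0 ≤ ε) (hτ : τ = 1 ∨ τ = -1) (y y' : ℝ) :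
    |comb T A ε τ y - comb T A ε τ y'| ≤ ε * |y - y'| := by
  unfold comb
  rw [← mul_sub, abs_mul]
  have h1 : |τ| = 1 := by rcases hτ with h | h <;> rw [h] <;> simp
  rw [h1, one_mul]
  have h2 : |max 0 (A - ε * Metric.infDist y T) - max 0 (A - ε * Metric.infDist y' T)|
      ≤ |(A - ε * Metric.infDist y T) - (A - ε * Metric.infDist y' T)| := by
    have := abs_max_sub_max_le_abs (A - ε * Metric.infDist y T) (A - ε * Metric.infDist y' T) 0
    rwa [max_comm, max_comm (A - ε * Metric.infDist y' T)] at this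
  refine h2.trans ?_
  have e : (A - ε * Metric.infDist y T) - (A - ε * Metric.infDist y' T)
      = ε * (Metric.infDist y' T - Metric.infDist y T) := by ring
  rw [e, abs_mul, abs_of_nonneg hε]
  apply mul_le_mul_of_nonneg_left _ hε
  have a1 := Metric.infDist_le_infDist_add_dist (s := T) (x := y) (y := y')
  have a2 := Metric.infDist_le_infDist_add_dist (s := T) (x := y') (y := y)
  rw [Real.dist_eq] at a1 a2
  rw [abs_sub_comm y' y] at a2
  rw [abs_le]
  constructor <;> linarith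

theorem comb_bump {T : Set ℝ} (hT : T.Nonempty) {A ε τ w K : ℝ} (hε : 0 < ε) (hA : A = ε * w)
    (hτ : τ = 1 ∨ τ = -1) (hK : 0 < K) (hTK : ∀ t ∈ T, |t| + w ≤ K) :
    Bump K ε (comb T A ε τ) where
  Kpos := hK
  εnn := hε.le
  supp := fun y hy => comb_zero hT hε hA fun t ht => by
    have h1 := hTK t ht
    have h2 := abs_sub_abs_le_abs_sub y t
    linarith
  lip := comb_lip hε.le hτ

end Pool.Agent.Helper66.RotZ
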