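import Pool.Agent.Helper66.Rot.Z5

/-!
Case Z: the translation number is well approximable from below.
-/

namespace Pool.Agent.Helper66.RotZ

open CircleDeg1Lift Filter Topology Pool.Agent.Helper88.Rot

/-- nearness of times for integer sequences -/
def nr (q Q : ℕ) (a b : ℤ) (x : ℝ) : Prop :=
  ∃ i : ℤ, |((q * (a - b) - i * Q : ℤ) : ℝ)| ≤ x * q

theorem nr.mono {q Q : ℕ} {a b : ℤ} {x y : ℝ} (h : nr q Q a b x) (hxy : x ≤ y) : nr q Q a b y := by
  obtain ⟨i, hi⟩ := h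
  exact ⟨i, hi.trans (mul_le_mul_of_nonneg_right hxy (by positivity))⟩

theorem nr.symm {q Q : ℕ} {a b : ℤ} {x : ℝ} (h : nr q Q a b x) : nr q Q b a x := by
  obtain ⟨i, hi⟩ := h
  refine ⟨-i, ?_⟩
  rw [← abs_neg]
  have : -(((q * (b - a) - -i * Q : ℤ) : ℝ)) = ((q * (a - b) - i * Q : ℤ) : ℝ) := by
    push_cast; ring
  rw [this]
  exact hi

theorem nr.trans {q Q : ℕ} {a b c : ℤ} {x y : ℝ} (h : nr q Q a b x) (h' : nr q Q b c y) :
    nr q Q a c (x + y) := by
  obtain ⟨i, hi⟩ := h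
  obtain ⟨i', hi'⟩ := h'
  refine ⟨i + i', ?_⟩
  have e : ((q * (a - c) - (i + i') * Q : ℤ) : ℝ)
      = ((q * (a - b) - i * Q : ℤ) : ℝ) + ((q * (b - c) - i' * Q : ℤ) : ℝ) := by push_cast; ring
  rw [e]
  have := abs_add_le ((q * (a - b) - i * Q : ℤ) : ℝ) ((q * (b - c) - i' * Q : ℤ) : ℝ)
  linarith

theorem nr.refl {q Q : ℕ} {a : ℤ} : nr q Q a a 0 := ⟨0, by simp⟩

theorem caseZ {θ : ℝ} (hW : WAB θ) : PL' θ := by
  intro m S z₀ ρ hder hne
  classical
  have hρ : ∀ s < m, 0 ≤ ρ s := fun s hs => deriv_nonneg_of_mono (S.mono s) (hder s hs)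
  obtain ⟨R, hR1, hR⟩ : ∃ R : ℝ, 1 ≤ R ∧ ∀ s < m, ρ s ≤ R := by
    refine ⟨1 + ∑ s ∈ Finset.range m, ρ s, ?_, fun s hs => ?_⟩
    · have : 0 ≤ ∑ s ∈ Finset.range m, ρ s :=
        Finset.sum_nonneg fun s hs => hρ s (Finset.mem_range.1 hs)
      linarith
    · have := Finset.single_le_sum (f := ρ) (fun i hi => hρ i (Finset.mem_range.1 hi))
        (Finset.mem_range.2 hs)
      linarith
  -- fractions
  have hseq : ∀ j : ℕ, ∃ (q Q : ℕ) (p P : ℤ), 0 < q ∧ P * q - p * Q = 1 ∧ 0 < Q ∧ 0 < P - Q * θ ∧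
      Q * (P - Q * θ) < 1 ∧ (q : ℝ) * ((j : ℝ) + 2) ≤ 2 * Q := by
    intro j
    have hj : (0 : ℝ) < 1 / ((j : ℝ) + 2) := by positivity
    obtain ⟨q, p, hq, hcop, hpos, hlt⟩ := hW (1 / ((j : ℝ) + 2)) hj
    have hj2 : 1 / ((j : ℝ) + 2) ≤ 1 / 2 := by
      apply one_div_le_one_div_of_le two_pos
      have : (0 : ℝ) ≤ j := by positivity
      linarith
    obtain ⟨Q, P, h1, h2, h3, h4, h5⟩ := companion hj hj2 hq hcop hpos hlt
    refine ⟨q, Q, p, P, hq, h1, h2, h3, h4, ?_⟩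
    have : (0 : ℝ) < (j : ℝ) + 2 := by positivity
    calc (q : ℝ) * ((j : ℝ) + 2) ≤ 2 * (1 / ((j : ℝ) + 2)) * Q * ((j : ℝ) + 2) :=
          mul_le_mul_of_nonneg_right h5 this.le
      _ = 2 * Q := by field_simp
  choose q Q p P hq hPq hQ hδ hδQ hqQ using hseq
  -- phases
  set a₀ : ℕ → ℕ → ℤ := fun j s => ⌈-(Q j * S.F s z₀)⌉ with ha₀
  set v : ℕ → ℕ → ℝ := fun j s => a₀ j s + Q j * S.F s z₀ with hv
  have hv01 : ∀ s j, v j s ∈ Set.Icc (0 : ℝ) 1 := fun s j => by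
    have h1 := Int.le_ceil (-(Q j * S.F s z₀))
    have h2 := Int.ceil_lt_add_one (-(Q j * S.F s z₀))
    simp only [hv, ha₀, Set.mem_Icc]
    constructor <;> linarith
  obtain ⟨𝒰, h𝒰⟩ : ∃ 𝒰 : Ultrafilter ℕ, (𝒰 : Filter ℕ) ≤ atTop :=
    ⟨Ultrafilter.of atTop, Ultrafilter.of_le _⟩
  have hlim : ∀ s, ∃ l ∈ Set.Icc (0:ℝ) 1, Tendsto (fun j => v j s) 𝒰 (𝓝 l) := fun s =>
    exists_ultralimit 𝒰 _ 0 1 (hv01 s)
  choose vl hvl01 hvl using hlim
  -- classes
  set r : ℕ → ℕ → Prop := fun s s' => ρ s = ρ s' ∧ (∃ n : ℤ, vl s' - vl s = n) ∧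
    ∃ g : ℕ, ∀ᶠ j in (𝒰 : Filter ℕ), nr (q j) (Q j) (a₀ j s) (a₀ j s') g with hr
  have hequiv : Equivalence r := by
    refine ⟨fun s => ⟨rfl, ⟨0, by simp⟩, 0, Eventually.of_forall fun j => ?_⟩, ?_, ?_⟩
    · rw [Nat.cast_zero]
      exact nr.refl
    · rintro s s' ⟨h1, ⟨n, hn⟩, g, hg⟩
      exact ⟨h1.symm, ⟨-n, by push_cast; linarith⟩, g, hg.mono fun j hj => hj.symm⟩
    · rintro s s' s'' ⟨h1, ⟨n, hn⟩, g, hg⟩ ⟨h2, ⟨n', hn'⟩, g', hg'⟩
      refine ⟨h1.trans h2, ⟨n + n', by push_cast; linarith⟩, g + g', ?_⟩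
      filter_upwards [hg, hg'] with j h3 h4
      push_cast
      exact h3.trans h4
  obtain ⟨s₁, hs₁, hρ₁, hnet⟩ := exists_unbalanced (Finset.range m) r hequiv ρ
    (fun s => (S.σ s : ℝ)) (fun s s' h => h.1) hne
  rw [Finset.mem_range] at hs₁
  have hB : 0 < ρ s₁ := lt_of_le_of_ne (hρ s₁ hs₁) (Ne.symm hρ₁)
  obtain ⟨B, hBdef⟩ : ∃ B, B = ρ s₁ := ⟨_, rfl⟩
  rw [← hBdef] at hB
  set G : Finset ℕ := (Finset.range m).filter (r s₁) with hG
  obtain ⟨net, hnetdef⟩ : ∃ net : ℝ, net = ∑ s ∈ G, (S.σ s : ℝ) := ⟨_, rfl⟩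
  have hnet' : net ≠ 0 := by rw [hnetdef]; convert hnet
  have hnet1 : 1 ≤ |net| := by
    have e : net = ((∑ s ∈ G, S.σ s : ℤ) : ℝ) := by
      rw [hnetdef]; push_cast; rfl
    rw [e] at hnet' ⊢
    have : (∑ s ∈ G, S.σ s) ≠ 0 := by exact_mod_cast hnet'
    exact_mod_cast Int.one_le_abs this
  obtain ⟨τ, hτ, hτnet⟩ : ∃ τ : ℝ, (τ = 1 ∨ τ = -1) ∧ 1 ≤ τ * net := by
    rcases le_total 0 net with h | h
    · exact ⟨1, Or.inl rfl, by rw [one_mul]; rwa [abs_of_nonneg h] at hnet1⟩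
    · exact ⟨-1, Or.inr rfl, by rw [abs_of_nonpos h] at hnet1; linarith⟩
  -- nearness constant
  obtain ⟨g, hg⟩ : ∃ g : ℕ, ∀ s < m,
      (∃ g' : ℕ, ∀ᶠ j in (𝒰 : Filter ℕ), nr (q j) (Q j) (a₀ j s) (a₀ j s₁) g') →
      ∀ᶠ j in (𝒰 : Filter ℕ), nr (q j) (Q j) (a₀ j s) (a₀ j s₁) g := by
    have h1 : ∀ s, ∃ g' : ℕ,
        (∃ g' : ℕ, ∀ᶠ j in (𝒰 : Filter ℕ), nr (q j) (Q j) (a₀ j s) (a₀ j s₁) g') →
        ∀ᶠ j in (𝒰 : Filter ℕ), nr (q j) (Q j) (a₀ j s) (a₀ j s₁) g' := by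
      intro s
      by_cases h : ∃ g' : ℕ, ∀ᶠ j in (𝒰 : Filter ℕ), nr (q j) (Q j) (a₀ j s) (a₀ j s₁) g'
      · obtain ⟨g', hg'⟩ := h
        exact ⟨g', fun _ => hg'⟩
      · exact ⟨0, fun h' => absurd h' h⟩
    choose g' hg' using h1
    refine ⟨∑ s ∈ Finset.range m, g' s, fun s hs h => (hg' s h).mono fun j hj => hj.mono ?_⟩
    exact_mod_cast Finset.single_le_sum (f := g') (fun _ _ => Nat.zero_le _)
      (Finset.mem_range.2 hs)
  have hfar : ∀ s < m,
      (¬ ∃ g' : ℕ, ∀ᶠ j in (𝒰 : Filter ℕ), nr (q j) (Q j) (a₀ j s) (a₀ j s₁) g') →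
      ∀ x : ℝ, ∀ᶠ j in (𝒰 : Filter ℕ), ¬ nr (q j) (Q j) (a₀ j s) (a₀ j s₁) x := by
    intro s _ h x
    obtain ⟨n, hn⟩ := exists_nat_ge x
    have h1 : ¬ ∀ᶠ j in (𝒰 : Filter ℕ), nr (q j) (Q j) (a₀ j s) (a₀ j s₁) n := fun h' => h ⟨n, h'⟩
    have h2 : ∀ᶠ j in (𝒰 : Filter ℕ), ¬ nr (q j) (Q j) (a₀ j s) (a₀ j s₁) n :=
      Ultrafilter.eventually_not.2 h1
    exact h2.mono fun j hj hx => hj (hx.mono hn)
  -- integers of the class
  have hcex : ∀ s, ∃ c : ℤ, r s₁ s → vl s - vl s₁ = c := by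
    intro s
    by_cases h : r s₁ s
    · obtain ⟨-, ⟨n, hn⟩, -⟩ := h
      exact ⟨n, fun _ => hn⟩
    · exact ⟨0, fun h' => absurd h' h⟩
  choose c hc using hcex
  -- separation
  obtain ⟨d₀, hd₀, hsep⟩ : ∃ d > 0, ∀ s < m, (¬ ∃ n : ℤ, vl s - vl s₁ = n) → ∀ n : ℤ,
      d ≤ |vl s - vl s₁ - n| := by
    refine exists_min_pos (fun s d => (¬ ∃ n : ℤ, vl s - vl s₁ = n) → ∀ n : ℤ,
      d ≤ |vl s - vl s₁ - n|) (fun s d d' _ hdd h hr' n => hdd.trans (h hr' n)) m fun s hs => ?_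
    by_cases h : ∃ n : ℤ, vl s - vl s₁ = n
    · exact ⟨1, one_pos, fun h' => absurd h h'⟩
    · refine ⟨|rr (vl s - vl s₁)|, ?_, fun _ n => rr_le_abs_sub _ n⟩
      show 0 < |rr (vl s - vl s₁)|
      rw [abs_pos]
      intro h0
      apply h
      refine ⟨round (vl s - vl s₁), ?_⟩
      unfold rr at h0
      linarith
  obtain ⟨d, hd⟩ : ∃ x : ℝ, x = min (d₀ / 2) 1 := ⟨_, rfl⟩
  have hd0 : 0 < d := hd ▸ lt_min (by positivity) one_pos
  have hd1 : d ≤ 1 := hd ▸ min_le_right _ _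
  have hdd₀ : 2 * d ≤ d₀ := by
    have : d ≤ d₀ / 2 := hd ▸ min_le_left _ _
    linarith
  -- constants
  have hBR : B ≤ R := hBdef ▸ hR s₁ hs₁
  have hm1 : (1 : ℝ) ≤ m := by
    have : 0 < m := lt_of_le_of_lt (Nat.zero_le _) hs₁
    exact_mod_cast this
  obtain ⟨Nc, hNcdef⟩ : ∃ x : ℕ, x = ⌈5 + 6 * R / B⌉₊ := ⟨_, rfl⟩
  have hNc : 5 + 6 * R / B ≤ Nc := hNcdef ▸ Nat.le_ceil _
  have hRB0 : 0 ≤ 6 * R / B := by positivity
  have hNc1 : (1 : ℝ) ≤ Nc := by linarith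
  obtain ⟨w, hw⟩ : ∃ x : ℝ, x = d / (16 * (m * Nc * R)) := ⟨_, rfl⟩
  have hmNR : 0 < (m : ℝ) * Nc * R := by positivity
  have hw0 : 0 < w := by rw [hw]; positivity
  have hw16 : 16 * (m * Nc * (R * w)) = d := by rw [hw]; field_simp
  have hRw0 : 0 < R * w := by positivity
  have hRw : 16 * (R * w) ≤ d := by
    have h1 : (1 : ℝ) * 1 ≤ m * Nc := mul_le_mul hm1 hNc1 zero_le_one (by linarith)
    have h2 : (1 : ℝ) * 1 * (R * w) ≤ m * Nc * (R * w) := mul_le_mul_of_nonneg_right h1 hRw0.le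
    linarith
  have hBw : B * w ≤ R * w := mul_le_mul_of_nonneg_right hBR hw0.le
  have hw16' : 16 * w ≤ 1 := by
    have : 1 * w ≤ R * w := mul_le_mul_of_nonneg_right hR1 hw0.le
    linarith
  obtain ⟨ε, hε⟩ : ∃ x : ℝ, x = 1 / (24 * ((m : ℝ) + 1) ^ 2) := ⟨_, rfl⟩
  have hε0 : 0 < ε := by rw [hε]; positivity
  have hεm : 24 * (ε * ((m : ℝ) + 1) ^ 2) = 1 := by rw [hε]; field_simp
  have hεm1 : 24 * (ε * (m * (m + 1))) ≤ 1 := by
    have h1 : (m : ℝ) * (m + 1) ≤ (m + 1) ^ 2 := by nlinarith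
    have h2 := mul_le_mul_of_nonneg_left h1 hε0.le
    linarith
  have hεm2 : 24 * (ε * m) ≤ 1 := by
    have h1 : ε * m * 1 ≤ ε * m * (m + 1) := mul_le_mul_of_nonneg_left (by linarith) (by positivity)
    linarith
  have hε24 : 24 * ε ≤ 1 := by
    have h1 : ε * 1 ≤ ε * m := mul_le_mul_of_nonneg_left hm1 hε0.le
    linarith
  obtain ⟨A, hA⟩ : ∃ x : ℝ, x = ε * w := ⟨_, rfl⟩
  have hA0 : 0 < A := by rw [hA]; positivity
  have hBA0 : 0 < B * A := by positivity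
  have hmBA : 24 * (m * (B * A)) ≤ R * w := by
    have h1 : 24 * (m * (B * A)) = 24 * (ε * m) * (B * w) := by rw [hA]; ring
    rw [h1]
    have h2 : 24 * (ε * m) * (B * w) ≤ 1 * (B * w) :=
      mul_le_mul_of_nonneg_right hεm2 (by positivity)
    linarith
  have hBAm : B * A ≤ m * (B * A) := le_mul_of_one_le_left hBA0.le hm1
  have hAw : A ≤ w := by
    rw [hA]
    have : ε * w ≤ 1 * w := mul_le_mul_of_nonneg_right (by linarith) hw0.le
    linarith
  obtain ⟨D, hD⟩ : ∃ x : ℝ, x = 3 * (m * (B * A)) := ⟨_, rfl⟩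
  obtain ⟨rs, hrs⟩ : ∃ x : ℝ, x = B * A / 2 := ⟨_, rfl⟩
  have hrs0 : 0 < rs := by rw [hrs]; positivity
  have hrs1 : rs ≤ 1 := by linarith
  obtain ⟨J, hJ⟩ : ∃ x : ℕ, x = ⌈3 / rs⌉₊ := ⟨_, rfl⟩
  have hJr : 3 ≤ J * rs := by
    have := Nat.le_ceil (3 / rs)
    rw [← hJ, div_le_iff₀ hrs0] at this
    exact this
  have hJr' : J * rs ≤ 4 := by
    have := Nat.ceil_lt_add_one (by positivity : 0 ≤ 3 / rs)
    rw [← hJ] at this
    have h1 := mul_lt_mul_of_pos_right this hrs0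
    rw [add_mul, div_mul_cancel₀ _ hrs0.ne'] at h1
    linarith
  have hJ0 : 0 < J := by
    rcases Nat.eq_zero_or_pos J with h | h
    · rw [h] at hJr
      norm_num at hJr
    · exact h
  -- smallest relative density
  obtain ⟨κ₀, hκ₀, hκmin⟩ : ∃ κ > 0, ∀ s < m, 0 < ρ s → κ ≤ ρ s / B := by
    refine exists_min_pos (fun s κ => 0 < ρ s → κ ≤ ρ s / B)
      (fun s d d' _ hdd h h0 => hdd.trans (h h0)) m fun s hs => ?_
    by_cases h : 0 < ρ s
    · exact ⟨ρ s / B, by positivity, fun _ => le_rfl⟩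
    · exact ⟨1, one_pos, fun h' => absurd h' h⟩
  obtain ⟨κ₁, hκ₁, hκmin1⟩ : ∃ κ > 0, ∀ s < m, ρ s ≠ B → κ ≤ |ρ s / B - 1| := by
    refine exists_min_pos (fun s κ => ρ s ≠ B → κ ≤ |ρ s / B - 1|)
      (fun s d d' _ hdd h h0 => hdd.trans (h h0)) m fun s hs => ?_
    by_cases h : ρ s = B
    · exact ⟨1, one_pos, fun h' => absurd h h'⟩
    · refine ⟨|ρ s / B - 1|, ?_, fun _ => le_rfl⟩
      show 0 < |ρ s / B - 1|
      rw [abs_pos, sub_ne_zero]
      intro h1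
      apply h
      rw [div_eq_one_iff_eq hB.ne'] at h1
      exact h1
  obtain ⟨Y, hYge, hYap⟩ := simul m (fun s => ρ s / B) (by positivity : 0 < min (1 / 2) (κ₀ * rs / 2))
    (2 * g + 34 + ⌈1 / κ₀⌉₊)
  have hκY : 1 ≤ κ₀ * Y := by
    have h1 := Nat.le_ceil (1 / κ₀)
    have h2 : ((2 * g + 34 + ⌈1 / κ₀⌉₊ : ℕ) : ℝ) ≤ Y := by exact_mod_cast hYge
    push_cast at h2
    have h3 : 1 / κ₀ ≤ Y := by
      have : (0 : ℝ) ≤ 2 * g := by positivity
      linarith
    rw [div_le_iff₀ hκ₀] at h3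
    linarith
  obtain ⟨c1, hc1⟩ : ∃ x : ℝ, x = 12 + J * Y + g + (g + 17) + R / B * (J * Y + 4) := ⟨_, rfl⟩
  obtain ⟨N₀, hN₀def⟩ : ∃ x : ℕ, x = ⌈(c1 + 1) / κ₁⌉₊ := ⟨_, rfl⟩
  have hN₀ : c1 + 1 ≤ κ₁ * N₀ := by
    have := Nat.le_ceil ((c1 + 1) / κ₁)
    rw [← hN₀def, div_le_iff₀ hκ₁] at this
    linarith
  obtain ⟨K, hK⟩ : ∃ x : ℝ, x = (N₀ + J * Y + 4) / B + w + 1 := ⟨_, rfl⟩
  have hK0 : 1 ≤ K := by
    have : 0 ≤ (N₀ + J * Y + 4 : ℝ) / B := by positivity
    linarith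
  obtain ⟨N, hN⟩ : ∃ x : ℝ, x = R * K + 1 := ⟨_, rfl⟩
  obtain ⟨N', hN'⟩ : ∃ x : ℝ, x = max (N + 12 + 2) (N₀ + J * Y + g + 40) := ⟨_, rfl⟩
  have hN'1 : N + 12 + 2 ≤ N' := hN' ▸ le_max_left _ _
  have hN'2 : N₀ + J * Y + g + 40 ≤ N' := hN' ▸ le_max_right _ _
  have hN'0 : 0 < N' := by
    have : (0 : ℝ) ≤ N₀ + J * Y + g := by positivity
    linarith
  obtain ⟨E, hE⟩ : ∃ x : ℝ, x = m * (2 * N' + 1) := ⟨_, rfl⟩
  have hE0 : 0 < E := by rw [hE]; positivity
  obtain ⟨ω, hω⟩ : ∃ x : ℝ, x = min (1 / 4) (min (1 / 8) (B * A / 8) / (5 * E)) := ⟨_, rfl⟩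
  have hω0 : 0 < ω := hω ▸ lt_min (by norm_num) (by positivity)
  have hωE : 5 * ω * E ≤ min (1 / 8) (B * A / 8) := by
    have h1 : ω ≤ min (1 / 8) (B * A / 8) / (5 * E) := hω ▸ min_le_right _ _
    rw [le_div_iff₀ (by positivity)] at h1
    linarith
  obtain ⟨o, ho⟩ : ∃ x : ℝ, x = B * A := ⟨_, rfl⟩
  obtain ⟨Gb, hGb⟩ : ∃ x : ℝ, x = N' + N₀ + (g + 17) + J * Y := ⟨_, rfl⟩
  -- window radius
  obtain ⟨Q₀, hQ₀⟩ : ∃ Q₀ : ℝ, ∀ s < m, ∀ Q : ℝ, Q₀ ≤ Q → ∀ y, |y| ≤ K + 1 →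
      |S.F s (z₀ + y / Q) - S.F s z₀ - ρ s * y / Q| ≤ ω / Q := by
    have h1 : ∀ s < m, ∃ Q₀ : ℝ, ∀ Q : ℝ, Q₀ ≤ Q → ∀ y, |y| ≤ K + 1 →
        |S.F s (z₀ + y / Q) - S.F s z₀ - ρ s * y / Q| ≤ ω / Q := fun s hs =>
      exists_win (hder s hs) (K + 1) ω (by linarith) hω0
    choose! q hq using h1
    refine ⟨∑ s ∈ Finset.range m, |q s|, fun s hs Q hQ => hq s hs Q (le_trans ?_ hQ)⟩
    exact (le_abs_self _).trans (Finset.single_le_sum (f := fun s => |q s|)
      (fun i _ => abs_nonneg _) (Finset.mem_range.2 hs))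
  -- choose j
  have ev1 : ∀ᶠ j in (𝒰 : Filter ℕ), ∀ s ∈ Finset.range m, |v j s - vl s| ≤ o / 2 := by
    rw [Filter.eventually_all_finset]
    intro s _
    have h1 : Tendsto (fun j => |v j s - vl s|) 𝒰 (𝓝 0) := by
      have := ((hvl s).sub_const (vl s)).abs
      simpa using this
    exact (h1.eventually (gt_mem_nhds (by rw [ho]; positivity : (0:ℝ) < o / 2))).mono
      fun j hj => hj.le
  have ev2 : ∀ᶠ j in (𝒰 : Filter ℕ), ∀ s ∈ Finset.range m,
      ((∃ g' : ℕ, ∀ᶠ j in (𝒰 : Filter ℕ), nr (q j) (Q j) (a₀ j s) (a₀ j s₁) g') ∧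
        nr (q j) (Q j) (a₀ j s) (a₀ j s₁) g) ∨
      ((¬ ∃ g' : ℕ, ∀ᶠ j in (𝒰 : Filter ℕ), nr (q j) (Q j) (a₀ j s) (a₀ j s₁) g') ∧
        ¬ nr (q j) (Q j) (a₀ j s) (a₀ j s₁) Gb) := by
    rw [Filter.eventually_all_finset]
    intro s hs
    rw [Finset.mem_range] at hs
    by_cases h : ∃ g' : ℕ, ∀ᶠ j in (𝒰 : Filter ℕ), nr (q j) (Q j) (a₀ j s) (a₀ j s₁) g'
    · exact (hg s hs h).mono fun j hj => Or.inl ⟨h, hj⟩
    · exact (hfar s hs h Gb).mono fun j hj => Or.inr ⟨h, hj⟩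
  obtain ⟨big, hbig⟩ : ∃ x : ℝ, x = |Q₀| * 2 + 8 * (K + R * K + N' + 20) + 16 * Y / (B * A)
      + 4 * (4 * N' + 5 * g + 200) := ⟨_, rfl⟩
  have ev3 : ∀ᶠ j : ℕ in (𝒰 : Filter ℕ), big ≤ (j : ℝ) :=
    (tendsto_natCast_atTop_atTop.mono_left h𝒰).eventually (eventually_ge_atTop _)
  obtain ⟨j, hj1, hj2, hj3⟩ := (ev1.and (ev2.and ev3)).exists
  clear ev1 ev2 ev3
  have hqj : (1 : ℝ) ≤ q j := by exact_mod_cast hq j
  have hYBA0 : 0 ≤ 16 * Y / (B * A) := by positivity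
  have hRK0 : 0 ≤ R * K := by positivity
  have hg0 : (0 : ℝ) ≤ g := by positivity
  have hQ₀abs := abs_nonneg Q₀
  have hbig0 : 0 ≤ big := by
    rw [hbig]; positivity
  have hqb : q j * big ≤ 2 * Q j := by
    refine le_trans ?_ (hqQ j)
    exact mul_le_mul_of_nonneg_left (by linarith) (by linarith)
  have hQb : big ≤ 2 * Q j := le_trans (le_mul_of_one_le_left hbig0 hqj) hqb
  have hQQ₀ : Q₀ ≤ Q j := by
    have h1 := le_abs_self Q₀
    have h2 := abs_nonneg Q₀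
    linarith
  -- times
  obtain ⟨H, hH⟩ : ∃ x : ℕ, x = Q j / (2 * q j) := ⟨_, rfl⟩
  have hH1 : 2 * q j * H ≤ Q j := by rw [hH]; exact Nat.mul_div_le _ _
  have hH2 : Q j < 2 * q j * (H + 1) := by
    rw [hH]
    exact Nat.lt_mul_div_succ _ (by have := hq j; omega)
  have hHbig : (4 * N' + 5 * g + 200 : ℝ) ≤ H + 1 := by
    have h1 : (Q j : ℝ) < 2 * q j * (H + 1) := by exact_mod_cast hH2
    have h2 : (q j : ℝ) * (4 * (4 * N' + 5 * g + 200)) ≤ q j * big := by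
      apply mul_le_mul_of_nonneg_left _ (by linarith)
      have := abs_nonneg Q₀
      rw [hbig]
      linarith
    have h3 : (q j : ℝ) * (4 * (4 * N' + 5 * g + 200)) ≤ q j * (4 * (H + 1)) := by
      have h4 : 2 * (Q j : ℝ) ≤ q j * (4 * (H + 1)) := by linarith
      linarith
    have h4 := le_of_mul_le_mul_left h3 (by linarith)
    linarith
  have hHg : g + 17 ≤ H := by
    have : ((g + 17 : ℕ) : ℝ) ≤ H := by push_cast; linarith
    exact_mod_cast this
  obtain ⟨H', hH'⟩ : ∃ x : ℕ, x + (g + 17) = H := ⟨H - (g + 17), by omega⟩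
  have hH'r : (H' : ℝ) + (g + 17) = H := by exact_mod_cast hH'
  -- the comb
  set y : ℕ → ℝ := fun l => (N₀ + l * Y + l * rs) / B with hy
  set T : Set ℝ := y '' (Finset.range J : Set ℕ) with hT
  have hTne : T.Nonempty := ⟨y 0, 0, by simpa using hJ0, rfl⟩
  have hTmem : ∀ t ∈ T, ∃ l < J, t = y l := by
    rintro t ⟨l, hl, rfl⟩
    exact ⟨l, by simpa using hl, rfl⟩
  have hTK : ∀ t ∈ T, |t| + w ≤ K := by
    intro t ht
    obtain ⟨l, hl, rfl⟩ := hTmem t ht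
    have hlJ : (l : ℝ) ≤ J := by exact_mod_cast hl.le
    have h0 : 0 ≤ y l := by simp only [hy]; positivity
    rw [abs_of_nonneg h0]
    have h1 : y l ≤ (N₀ + J * Y + 4) / B := by
      simp only [hy]
      apply div_le_div_of_nonneg_right _ hB.le
      have h2 : (l : ℝ) * Y ≤ J * Y := mul_le_mul_of_nonneg_right hlJ (by positivity)
      have h3 : (l : ℝ) * rs ≤ J * rs := mul_le_mul_of_nonneg_right hlJ hrs0.le
      linarith
    rw [hK]
    linarith
  have hbump : Bump K ε (comb T A ε τ) := comb_bump hTne hε0 hA hτ (by linarith) hTK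
  obtain ⟨h, hh⟩ := exists_h hbump (by linarith) (z₀ := z₀) (Q := (Q j : ℝ)) (by linarith)
  have hRs : ∀ s < m, ρ s * K + 1 ≤ N := fun s hs => by
    have := mul_le_mul_of_nonneg_right (hR s hs) (by linarith : 0 ≤ K)
    rw [hN]; linarith
  let L : Loc S :=
    { K := K, ε := ε, A := A, ω := ω, N := N, N' := N', Φm := 12, err := 2 * ε * R * A + 3 * ω,
      z₀ := z₀, x₀ := ((-a₀ j s₁ - H : ℤ) : ℝ) / Q j
      u := comb T A ε τ, P := P j, Q := Q j, ρ := ρ, h := h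
      hu := hbump
      hA := fun y => comb_abs hA0.le hε0.le hτ
      hA0 := by linarith
      hε := by linarith
      hρ := hρ
      hω0 := hω0.le
      hω := hω ▸ min_le_left _ _
      hwin := fun s hs y hy => hQ₀ s hs _ hQQ₀ y hy
      hQ := by have := abs_nonneg Q₀; linarith
      hQ' := fun s hs => by
        have h1 := hRs s hs
        have := abs_nonneg Q₀
        rw [hN] at h1
        linarith
      hh := hh
      hN := hRs
      herr := fun s hs => by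
        have h2 : 2 * ε * ρ s * A ≤ 2 * ε * R * A := by
          have := hR s hs
          gcongr
        linarith
      hN' := by linarith
      hQ'' := by have := abs_nonneg Q₀; linarith }
  have hLV : ∀ s, L.V s = ((-a₀ j s₁ - H : ℤ) : ℝ) + -(Q j * S.F s z₀) := by
    intro s
    show (Q j : ℝ) * (((-a₀ j s₁ - H : ℤ) : ℝ) / Q j - S.F s z₀) = _
    have : (Q j : ℝ) ≠ 0 := by
      have := hQ j
      positivity
    field_simp
    ring
  have hLa : ∀ s, L.a s = (-a₀ j s₁ - H) + a₀ j s := by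
    intro s
    show ⌈L.V s⌉ = _
    rw [hLV, Int.ceil_intCast_add]
  have hLv : ∀ s, L.v s = v j s := by
    intro s
    show (L.a s : ℝ) - L.V s = _
    rw [hLV, hLa]
    simp only [hv]
    push_cast
    ring
  have hnear : ∀ s x, near L (q j) s s₁ x ↔ nr (q j) (Q j) (a₀ j s) (a₀ j s₁) x := by
    intro s x
    unfold near nr
    have : L.a s - L.a s₁ = a₀ j s - a₀ j s₁ := by rw [hLa, hLa]; ring
    rw [this]
  have hLδ : L.δ = P j - Q j * θ := rfl
  have hQj0 : (0 : ℝ) < Q j := by exact_mod_cast hQ j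
  have hYg : 2 * g + 34 ≤ Y := by omega
  have hvv : ∀ s < m, |v j s - vl s| ≤ o / 2 := fun s hs => hj1 s (Finset.mem_range.2 hs)
  -- spacing of the teeth
  have hsp : ∀ l l' : ℕ, l < l' → 2 * w ≤ y l' - y l := by
    intro l l' hll
    have h1 : (l : ℝ) + 1 ≤ l' := by exact_mod_cast hll
    have h2 : y l' - y l = (((l' : ℝ) - l) * Y + (l' - l) * rs) / B := by
      simp only [hy]; field_simp; ring
    rw [h2, le_div_iff₀ hB]
    have h3 : 1 * (Y : ℝ) ≤ (l' - l) * Y := mul_le_mul_of_nonneg_right (by linarith) (by positivity)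
    have h4 : 0 ≤ ((l' : ℝ) - l) * rs := mul_nonneg (by linarith) hrs0.le
    have h5 : ((2 * g + 34 : ℕ) : ℝ) ≤ Y := by exact_mod_cast hYg
    push_cast at h5
    linarith
  let Λ : Lad L :=
    { q := q j, H' := H', g := g, J := J, Y := Y, N₀ := N₀, Nc := Nc, s₁ := s₁
      B := B, r := rs, w := w, R := R, d := d, o := o, D := D, τ := τ, E := E, Gb := Gb
      G := G
      c := c
      Ys := fun s => round (ρ s / B * Y)
      hq := hq j
      hPb := by
        show P j * q j ≡ 1 [ZMOD Q j]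
        rw [Int.modEq_iff_dvd]
        exact ⟨-p j, by linarith [hPq j]⟩
      hs₁ := hs₁
      ha := by
        rw [hLa]
        have : (H : ℤ) = H' + (g + 17) := by exact_mod_cast hH'.symm
        rw [this]; ring
      hQ1 := by
        show 2 * q j * (H' + (g + 17)) ≤ Q j
        rw [hH']; exact hH1
      hQ2 := by
        show Q j ≤ 2 * q j * (H' + (g + 17) + 1)
        rw [hH']; exact hH2.le
      hH := by
        show 4 * N' + 4 * g + 100 ≤ (H' : ℝ)
        linarith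
      hN0N := hN'2
      hB := hBdef.symm
      hB0 := hB
      hr := hrs0
      hJr := hJr
      hJr' := hJr'
      hY := by omega
      hYs := fun s hs h0 => by
        have h1 : |ρ s / B * Y - round (ρ s / B * Y)| ≤ min (1 / 2) (κ₀ * rs / 2) := hYap s hs
        have h2 : κ₀ ≤ ρ s / B := hκmin s hs h0
        refine ⟨?_, ?_⟩
        · refine (h1.trans (min_le_right _ _)).trans ?_
          have := mul_le_mul_of_nonneg_right h2 hrs0.le
          show κ₀ * rs / 2 ≤ ρ s / B * rs / 2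
          linarith
        · have h3 := abs_le.1 (h1.trans (min_le_left _ _))
          have h4 : κ₀ * Y ≤ ρ s / B * Y := mul_le_mul_of_nonneg_right h2 (by positivity)
          have h5 : (0 : ℝ) < (round (ρ s / B * Y) : ℤ) := by linarith
          have h6 : 0 < round (ρ s / B * Y) := by exact_mod_cast h5
          omega
      hN₀ := fun s hs h0 hne' => by
        have h1 : κ₁ ≤ |ρ s / B - 1| := hκmin1 s hs hne'
        have h2 : κ₁ * N₀ ≤ |ρ s / B - 1| * N₀ := mul_le_mul_of_nonneg_right h1 (by positivity)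
        have h3 : ρ s / B * (J * Y + 4) ≤ R / B * (J * Y + 4) :=
          mul_le_mul_of_nonneg_right (div_le_div_of_nonneg_right (hR s hs) hB.le) (by positivity)
        show 12 + J * Y + g + (g + 17) + ρ s / B * (J * Y + 4) < |ρ s / B - 1| * N₀
        linarith
      hR := hR
      hw0 := hw0.le
      hRw := by linarith
      hNc := hNc
      hlossC := by linarith
      hE := hE.ge
      hωE := hωE.trans (min_le_left _ _)
      hωE' := hωE.trans (min_le_right _ _)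
      hδ := hδ j
      hδQ := by
        show (P j - Q j * θ) * Q j < 1
        have := hδQ j
        linarith
      hδY := by
        show (P j - Q j * θ) * (q j * Y) ≤ B * A / 8
        have h1 : (P j - Q j * θ) * Q j ≤ 1 := by have := hδQ j; linarith
        have h2 : (q j : ℝ) * (16 * Y / (B * A)) ≤ 2 * Q j := by
          refine le_trans (mul_le_mul_of_nonneg_left ?_ (by linarith)) hqb
          have := abs_nonneg Q₀
          rw [hbig]
          linarith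
        have h3 : (q j : ℝ) * Y ≤ Q j * (B * A / 8) := by
          have h4 : (q j : ℝ) * (16 * Y / (B * A)) * (B * A) ≤ 2 * Q j * (B * A) :=
            mul_le_mul_of_nonneg_right h2 hBA0.le
          have h5 : (q j : ℝ) * (16 * Y / (B * A)) * (B * A) = 16 * (q j * Y) := by
            field_simp
          linarith
        have h6 := mul_le_mul_of_nonneg_left h3 (hδ j).le
        have h7 := mul_le_mul_of_nonneg_right h1 (by positivity : 0 ≤ B * A / 8)
        linarith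
      hrBA := hrs
      hD := hD
      hεD := by
        show m * (ε * (D + o) + 2 * ε * (B * A)) ≤ B * A / 8
        have h1 : m * (ε * (D + o) + 2 * ε * (B * A)) = 3 * (ε * (m * (m + 1))) * (B * A) := by
          rw [hD, ho]; ring
        rw [h1]
        have h2 := mul_le_mul_of_nonneg_right hεm1 hBA0.le
        linarith
      ho := by rw [ho]; positivity
      hdd := by
        rw [hD, ho]
        linarith
      hd1 := hd1
      hτ := hτ
      hG := fun s hs => by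
        rw [hG, Finset.mem_filter, Finset.mem_range] at hs
        obtain ⟨hsm, hrs'⟩ := hs
        have hcs := hc s hrs'
        obtain ⟨e1, -, g', hg'⟩ := hrs'
        have v1 := abs_le.1 (hvv s hsm)
        have v2 := abs_le.1 (hvv s₁ hs₁)
        refine ⟨hsm, by rw [hBdef]; exact e1.symm, ?_, ?_, ?_⟩
        · rw [hLv, hLv, ← hcs, abs_le]
          constructor <;> linarith
        · have h1 := hvl01 s
          have h2 := hvl01 s₁
          rw [Set.mem_Icc] at h1 h2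
          rw [← hcs, abs_le]
          constructor <;> linarith
        · rw [hnear]
          rcases hj2 s (Finset.mem_range.2 hsm) with h3 | h3
          · exact h3.2
          · exact absurd ⟨g', hg'.mono fun j hj => hj.symm⟩ h3.1
      hnet := by rw [← hnetdef]; exact hτnet
      hfar := fun s hs => by
        rw [hnear, hnear]
        rcases hj2 s (Finset.mem_range.2 hs) with h3 | h3
        · exact Or.inl h3.2
        · exact Or.inr h3.2
      hGb := hGb.ge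
      hnG := fun s hs hρB hn hsG n => by
        rw [hnear] at hn
        have hex : ∃ g' : ℕ, ∀ᶠ j in (𝒰 : Filter ℕ), nr (q j) (Q j) (a₀ j s) (a₀ j s₁) g' := by
          rcases hj2 s (Finset.mem_range.2 hs) with h3 | h3
          · exact h3.1
          · exfalso
            apply h3.2
            refine hn.mono ?_
            have : (0 : ℝ) ≤ N₀ + J * Y := by positivity
            rw [hGb]
            linarith
        have hni : ¬ ∃ n : ℤ, vl s - vl s₁ = n := by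
          intro hint
          apply hsG
          rw [hG, Finset.mem_filter, Finset.mem_range]
          obtain ⟨g', hg'⟩ := hex
          exact ⟨hs, by rw [← hBdef]; exact hρB.symm, hint, g', hg'.mono fun j hj => hj.symm⟩
        have h1 := hsep s hs hni n
        have v1 := abs_le.1 (hvv s hs)
        have v2 := abs_le.1 (hvv s₁ hs₁)
        rw [hLv, hLv]
        have h2 : |(vl s - vl s₁ - n) - (v j s - v j s₁ - n)| ≤ o := by
          rw [abs_le]
          constructor <;> linarith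
        have h3 := abs_sub_abs_le_abs_sub (vl s - vl s₁ - n) (v j s - v j s₁ - n)
        have h4 : o ≤ d := by rw [ho]; linarith
        linarith
      hΦm := le_rfl
      hu0 := fun x hx => by
        obtain ⟨t, ht, htw⟩ := comb_ne hTne hε0 hA hx
        obtain ⟨l, hl, rfl⟩ := hTmem t ht
        exact ⟨l, hl, htw⟩
      hubot := fun l hl => by
        show comb T A ε τ (y l - w) = 0
        refine comb_zero hTne hε0 hA fun t ht => ?_
        obtain ⟨l', hl', rfl⟩ := hTmem t ht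
        rcases Nat.lt_trichotomy l l' with h1 | h1 | h1
        · have := hsp l l' h1
          rw [abs_sub_comm]
          refine le_trans ?_ (le_abs_self _)
          linarith
        · rw [h1, abs_sub_comm]
          refine le_trans ?_ (le_abs_self _)
          linarith
        · have := hsp l' l h1
          refine le_trans ?_ (le_abs_self _)
          linarith
      huc := fun l hl => by
        show comb T A ε τ (y l) = τ * A
        exact comb_mem hA0.le ⟨l, by simpa using hl, rfl⟩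
      husign := fun x => comb_sign hτ }
  exact ⟨h, Λ.final⟩

end Pool.Agent.Helper66.RotZ
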